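import Pool.Agent.Helper21_UR.Stmts

/-! # UR squad, module CB -/

set_option autoImplicit false

namespace Pool.Agent.Helper45_UR

open Complex Pool.Agent.Helper21_UR

/-- `π s / (1 + i v) = x - i x v` with `x = π s / (1 + v²)` -/
theorem div_one_add (s v : ℝ) :
    (Real.pi : ℂ) * s / (1 + (v : ℂ) * I) =
      ((Real.pi * s / (1 + v ^ 2) : ℝ) : ℂ) + ((-(Real.pi * s / (1 + v ^ 2) * v) : ℝ) : ℂ) * I := by
  have h1 : (1 : ℝ) + v ^ 2 ≠ 0 := by positivity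
  have h2 : (1 : ℂ) + (v : ℂ) * I ≠ 0 := by
    intro h
    have := congrArg Complex.re h
    simp at this
  have h3 : (1 : ℂ) + (v : ℂ) ^ 2 ≠ 0 := by exact_mod_cast h1
  rw [div_eq_iff h2]
  push_cast
  field_simp
  ring_nf
  rw [I_sq]
  ring

theorem norm_cosh_sq (a b : ℝ) :
    ‖cosh ((a : ℂ) + (b : ℂ) * I)‖ ^ 2 = Real.cosh a ^ 2 - Real.sin b ^ 2 := by
  have h : cosh ((a : ℂ) + (b : ℂ) * I) =
      ((Real.cosh a * Real.cos b : ℝ) : ℂ) + ((Real.sinh a * Real.sin b : ℝ) : ℂ) * I := by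
    rw [Complex.cosh_add, cosh_mul_I, sinh_mul_I]
    push_cast
    ring
  rw [h, ← normSq_eq_norm_sq, normSq_add_mul_I]
  have h1 := Real.cosh_sq a
  have h2 := Real.sin_sq_add_cos_sq b
  have h3 : Real.cos b ^ 2 = 1 - Real.sin b ^ 2 := by linarith
  rw [mul_pow, mul_pow, h1, h3]
  ring

theorem norm_cosh_div_sq (s v : ℝ) :
    ‖cosh ((Real.pi : ℂ) * s / (1 + (v : ℂ) * I))‖ ^ 2 =
      Real.cosh (Real.pi * s / (1 + v ^ 2)) ^ 2
        - Real.sin (Real.pi * s / (1 + v ^ 2) * v) ^ 2 := by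
  rw [div_one_add, norm_cosh_sq, Real.sin_neg]
  ring

theorem cosh_sq_eq (X : ℝ) : Real.cosh X ^ 2 = (Real.exp (2 * X) + 2 + Real.exp (-(2 * X))) / 4 := by
  have h : Real.exp (2 * X) = Real.exp X ^ 2 := by rw [← Real.exp_nat_mul]; norm_num
  have h' : Real.exp (-(2 * X)) = Real.exp (-X) ^ 2 := by
    rw [← Real.exp_nat_mul]; congr 1; push_cast; ring
  have h2 : Real.exp X * Real.exp (-X) = 1 := by rw [← Real.exp_add]; simp
  rw [Real.cosh_eq, h, h']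
  nlinarith [h2]

theorem sin_sq_le_sq (y : ℝ) : Real.sin y ^ 2 ≤ y ^ 2 := by
  have h := Real.abs_sin_le_abs (x := y)
  exact sq_le_sq.2 h

/-- the reduction to an inequality in `X = |x|` -/
theorem cb_aux (c : ℝ) (hc : 0 ≤ c) (s v : ℝ)
    (h : c ^ 2 * Real.exp (2 * (Real.pi * |s| / (1 + v ^ 2))) +
      Real.sin (Real.pi * |s| / (1 + v ^ 2) * |v|) ^ 2 ≤
      (Real.exp (2 * (Real.pi * |s| / (1 + v ^ 2))) + 2 +
        Real.exp (-(2 * (Real.pi * |s| / (1 + v ^ 2))))) / 4) :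
    c * Real.exp (Real.pi * |s| / (1 + v ^ 2)) ≤ ‖cosh ((Real.pi : ℂ) * s / (1 + (v : ℂ) * I))‖ := by
  rw [← sq_le_sq₀ (by positivity) (norm_nonneg _), norm_cosh_div_sq]
  have hX : |Real.pi * s / (1 + v ^ 2)| = Real.pi * |s| / (1 + v ^ 2) := by
    rw [abs_div, abs_mul, abs_of_pos Real.pi_pos, abs_of_pos (by positivity : (0 : ℝ) < 1 + v ^ 2)]
  have h1 : Real.cosh (Real.pi * s / (1 + v ^ 2)) = Real.cosh (Real.pi * |s| / (1 + v ^ 2)) := by
    rw [← Real.cosh_abs, hX]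
  have h2 : Real.sin (Real.pi * s / (1 + v ^ 2) * v) ^ 2
      = Real.sin (Real.pi * |s| / (1 + v ^ 2) * |v|) ^ 2 := by
    rw [← hX, ← abs_mul]
    rcases abs_choice (Real.pi * s / (1 + v ^ 2) * v) with h | h
    · rw [h]
    · rw [h, Real.sin_neg, neg_sq]
  rw [h1, h2, cosh_sq_eq, mul_pow]
  have h3 : Real.exp (Real.pi * |s| / (1 + v ^ 2)) ^ 2
      = Real.exp (2 * (Real.pi * |s| / (1 + v ^ 2))) := by
    rw [← Real.exp_nat_mul]; norm_num
  rw [h3]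
  linarith

theorem exp_lower (y : ℝ) (hy : 0 ≤ y) :
    1 + y + y ^ 2 / 2 + y ^ 3 / 6 + y ^ 4 / 24 ≤ Real.exp y := by
  have h := Real.sum_le_exp_of_nonneg hy 5
  simp only [Finset.sum_range_succ, Finset.sum_range_zero] at h
  norm_num [Nat.factorial] at h
  linarith

theorem exp_neg_lower (y : ℝ) (hy : 0 ≤ y) (hy1 : y ≤ 1) :
    1 - y + y ^ 2 / 2 - y ^ 3 / 6 ≤ Real.exp (-y) := by
  have h := Real.exp_bound (x := -y) (by rw [abs_neg, abs_of_nonneg hy]; exact hy1) (n := 5) (by norm_num)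
  simp only [Finset.sum_range_succ, Finset.sum_range_zero] at h
  rw [abs_neg, abs_of_nonneg hy] at h
  norm_num [Nat.factorial] at h
  rw [abs_le] at h
  have h1 := h.1
  have h2 : y ^ 5 * (1 / 100) ≤ y ^ 4 / 24 := by
    have : y ^ 5 ≤ y ^ 4 := pow_le_pow_of_le_one hy hy1 (by norm_num)
    have h4 : 0 ≤ y ^ 4 := by positivity
    linarith
  nlinarith [h1, h2]

theorem cb1 (X w : ℝ) (hX : 0 ≤ X) (hw : 0 ≤ w) (hw3 : w ≤ 3) :
    (0.3 : ℝ) ^ 2 * Real.exp (2 * X) + Real.sin (X * w) ^ 2 ≤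
      (Real.exp (2 * X) + 2 + Real.exp (-(2 * X))) / 4 := by
  rcases le_or_gt X (46 / 100) with h | h
  · -- cos lower bound
    have hpi : 2 / Real.pi ≤ 0.6367 := by
      rw [div_le_iff₀ Real.pi_pos]
      linarith [Real.pi_gt_d4]
    have hXw : X * w ≤ 3 * X := by nlinarith
    have hXw0 : 0 ≤ X * w := by positivity
    have h1 := Real.one_sub_mul_le_cos (x := X * w) hXw0 (by linarith [Real.pi_gt_d4])
    have h2 : 1 - 0.6367 * (3 * X) ≤ Real.cos (X * w) := by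
      have : 2 / Real.pi * (X * w) ≤ 0.6367 * (3 * X) :=
        mul_le_mul hpi hXw hXw0 (by norm_num)
      linarith
    have h3 : (1 - 0.6367 * (3 * X)) ^ 2 ≤ Real.cos (X * w) ^ 2 :=
      pow_le_pow_left₀ (by linarith) h2 2
    have h4 := Real.sin_sq_add_cos_sq (X * w)
    have h5 := exp_lower (2 * X) (by linarith)
    have h6 := exp_neg_lower (2 * X) (by linarith) (by linarith)
    have h7 : 0 ≤ X ^ 2 * (46 / 100 - X) := mul_nonneg (sq_nonneg _) (by linarith)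
    nlinarith [h3, h4, h5, h6, h7, sq_nonneg (X - 0.4476), mul_nonneg hX (sq_nonneg (X - 0.4476)),
      sq_nonneg (X ^ 2), sq_nonneg (X * (X - 0.4476))]
  · have h4 := Real.sin_sq_le_one (X * w)
    have h5 : Real.exp 0.92 ≤ Real.exp (2 * X) := Real.exp_le_exp.2 (by linarith)
    have h6 := exp_lower 0.92 (by norm_num)
    have h8 : 2.5 ≤ Real.exp (2 * X) := by
      norm_num at h6
      linarith
    have h9 : Real.exp (2 * X) * Real.exp (-(2 * X)) = 1 := by rw [← Real.exp_add]; simp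
    have h10 : 0 < Real.exp (-(2 * X)) := Real.exp_pos _
    -- 0.16 E + 0.5 + 0.25 / E >= 1 for E >= 2.5
    nlinarith [mul_nonneg (sub_nonneg.2 h8) h10.le, mul_nonneg (sub_nonneg.2 h8) (sub_nonneg.2 h8)]

theorem cb2 (X w : ℝ) (hX : 0 ≤ X) (hw : 0 ≤ w) (hw3 : w ≤ 3 / 5) :
    (0.46 : ℝ) ^ 2 * Real.exp (2 * X) + Real.sin (X * w) ^ 2 ≤
      (Real.exp (2 * X) + 2 + Real.exp (-(2 * X))) / 4 := by
  have h5 := exp_lower (2 * X) (by linarith)
  have h6 : 0 < Real.exp (-(2 * X)) := Real.exp_pos _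
  rcases le_or_gt X (5 / 3) with h | h
  · have h1 := sin_sq_le_sq (X * w)
    have h2 : (X * w) ^ 2 ≤ 0.36 * X ^ 2 := by
      rw [mul_pow]
      nlinarith [sq_nonneg X, mul_nonneg (sq_nonneg X) (by nlinarith : (0:ℝ) ≤ 0.36 - w ^ 2)]
    nlinarith [h1, h2, h5, h6, mul_nonneg hX (sub_nonneg.2 h), mul_nonneg (sq_nonneg X) (sub_nonneg.2 h),
      sq_nonneg (X ^ 2), sq_nonneg (X * (X - 5/3))]
  · have h4 := Real.sin_sq_le_one (X * w)
    have h7 : 27 ≤ 1 + 2 * X + (2 * X) ^ 2 / 2 + (2 * X) ^ 3 / 6 + (2 * X) ^ 4 / 24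
        ∨ True := Or.inr trivial
    nlinarith [h4, h5, h6, mul_pos (by linarith : (0:ℝ) < X) (by linarith : (0:ℝ) < X),
      mul_nonneg (sq_nonneg X) (by linarith : (0:ℝ) ≤ X - 5/3), sq_nonneg (X ^ 2)]

theorem cb3 (X w : ℝ) (hX : 0 ≤ X) (hw : 0 ≤ w) (hw3 : w ≤ 3 / 10) :
    (0.485 : ℝ) ^ 2 * Real.exp (2 * X) + Real.sin (X * w) ^ 2 ≤
      (Real.exp (2 * X) + 2 + Real.exp (-(2 * X))) / 4 := by
  have h5 := exp_lower (2 * X) (by linarith)
  have h6 : 0 < Real.exp (-(2 * X)) := Real.exp_pos _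
  rcases le_or_gt X (23 / 10) with h | h
  · have h1 := sin_sq_le_sq (X * w)
    have h2 : (X * w) ^ 2 ≤ 0.09 * X ^ 2 := by
      rw [mul_pow]
      nlinarith [sq_nonneg X, mul_nonneg (sq_nonneg X) (by nlinarith : (0:ℝ) ≤ 0.09 - w ^ 2)]
    have h7 : 0 < Real.exp (2 * X) := Real.exp_pos _
    nlinarith [h1, h2, h7, h6, mul_nonneg hX (sub_nonneg.2 h)]
  · have h4 := Real.sin_sq_le_one (X * w)
    have h7 : (23 / 10 : ℝ) ^ 3 ≤ X ^ 3 := pow_le_pow_left₀ (by norm_num) h.le 3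
    have h8 : (23 / 10 : ℝ) ^ 4 ≤ X ^ 4 := pow_le_pow_left₀ (by norm_num) h.le 4
    have h9 : (23 / 10 : ℝ) ^ 2 ≤ X ^ 2 := pow_le_pow_left₀ (by norm_num) h.le 2
    have h10 : (2 * X) ^ 3 = 8 * X ^ 3 := by ring
    have h11 : (2 * X) ^ 4 = 16 * X ^ 4 := by ring
    have h12 : (2 * X) ^ 2 = 4 * X ^ 2 := by ring
    rw [h10, h11, h12] at h5
    norm_num at h7 h8 h9
    linarith

theorem cb : CbStatement := by
  intro s v
  have hX : 0 ≤ Real.pi * |s| / (1 + v ^ 2) := by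
    have := Real.pi_pos
    positivity
  refine ⟨fun h => ?_, fun h => ?_, fun h => ?_⟩
  · exact cb_aux _ (by norm_num) s v (cb1 _ _ hX (abs_nonneg v) h)
  · exact cb_aux _ (by norm_num) s v (cb2 _ _ hX (abs_nonneg v) h)
  · exact cb_aux _ (by norm_num) s v (cb3 _ _ hX (abs_nonneg v) h)

end Pool.Agent.Helper45_UR
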