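import Pool.Agent.Helper45_UR.Ell

/-! # UR squad, module R1V -/

set_option autoImplicit false

namespace Pool.Agent.Helper45_UR

open MeasureTheory Set Pool.Agent.Helper21_UR Complex

theorem zz_ge (t0 : ℝ) (h0 : 0 < t0) (h1 : t0 ≤ 1 / 50) : 328 ≤ zz t0 := by
  unfold zz
  rw [le_div_iff₀ (by positivity)]
  have := Real.pi_gt_d4
  nlinarith

theorem norm_W (z v : ℝ) : ‖(KK z v : ℂ) * cexp (I * psi z v)‖ = KK z v := by
  rw [norm_mul, norm_real, Real.norm_eq_abs, abs_of_pos (KK_pos z v)]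
  have : ‖cexp (I * psi z v)‖ = 1 := by
    rw [mul_comm, Complex.norm_exp_ofReal_mul_I]
  rw [this, mul_one]

theorem continuousOn_ell (s : ℝ) : ContinuousOn (fun v : ℝ => ell s v) (Icc (-(3 / 10)) (3 / 10)) := by
  intro v hv
  exact (hasDeriv_ell s v (abs_le.2 hv)).continuousAt.continuousWithinAt

theorem abs_tanh_le_one (x : ℝ) : |Real.tanh x| ≤ 1 := by
  have h := Real.tanh_sq_lt_one x
  exact abs_le_one_iff_mul_self_le_one.2 (by nlinarith)

theorem ell_norm103 (s v : ℝ) (hv : |v| ≤ 3 / 10) : ‖ell s v‖ ≤ 1.03 * EE s v := by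
  have h1 := ell_norm s v hv
  have h2 := EE_pos s v
  nlinarith

/-- the remainder -/
theorem rem_bound (κ ch s v : ℝ) (hκ : 0 < κ) (hv : |v| ≤ 3 / 10) :
    ‖ell s v * ((sg κ s + κ * v) * (bt κ ch s + I * κ * v) ^ 2) -
      sg κ s * bt κ ch s ^ 2 -
      (κ * bt κ ch s ^ 2 + 2 * I * κ * sg κ s * bt κ ch s +
        sg κ s * bt κ ch s ^ 2 * (I * (Real.pi * s * Real.tanh (Real.pi * s) : ℝ))) * v‖ ≤
    (‖sg κ s‖ * ‖bt κ ch s‖ ^ 2 * 0.515 * (Real.pi ^ 2 * s ^ 2 + 6.7 * |s| + 1.2) +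
        (κ * ‖bt κ ch s‖ ^ 2 + 2 * κ * ‖sg κ s‖ * ‖bt κ ch s‖) * 1.06 * Real.pi * |s| +
        1.03 * κ ^ 2 * (2 * ‖bt κ ch s‖ + ‖sg κ s‖)) * (EE s v * |v| ^ 2) +
      1.03 * κ ^ 3 * (EE s v * |v| ^ 3) := by
  have h1 := ell_first s v hv
  have h2 := ell_second s v hv
  have h3 := ell_norm103 s v hv
  have hE := EE_pos s v
  have hpi := Real.pi_pos
  set σ := sg κ s
  set β := bt κ ch s
  have key : ell s v * ((σ + κ * v) * (β + I * κ * v) ^ 2) - σ * β ^ 2 -
      (κ * β ^ 2 + 2 * I * κ * σ * β +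
        σ * β ^ 2 * (I * (Real.pi * s * Real.tanh (Real.pi * s) : ℝ))) * v =
      σ * β ^ 2 * (ell s v - 1 - I * (Real.pi * s * Real.tanh (Real.pi * s) * v : ℝ)) +
      v * (κ * β ^ 2 + 2 * I * κ * σ * β) * (ell s v - 1) +
      (v ^ 2 * (2 * I * κ ^ 2 * β - κ ^ 2 * σ) - κ ^ 3 * v ^ 3) * ell s v := by
    push_cast
    have hI : I ^ 2 = -1 := I_sq
    linear_combination (ell s v * (σ + κ * v) * κ ^ 2 * v ^ 2) * hI
  rw [key]
  have n1 : ‖σ * β ^ 2 * (ell s v - 1 - I * (Real.pi * s * Real.tanh (Real.pi * s) * v : ℝ))‖ ≤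
      ‖σ‖ * ‖β‖ ^ 2 * (v ^ 2 / 2 * (Real.pi ^ 2 * s ^ 2 + 6.7 * |s| + 1.2) * 1.03 * EE s v) := by
    rw [norm_mul, norm_mul, norm_pow]
    exact mul_le_mul_of_nonneg_left h2 (by positivity)
  have n2 : ‖(v : ℂ) * (κ * β ^ 2 + 2 * I * κ * σ * β) * (ell s v - 1)‖ ≤
      |v| * (κ * ‖β‖ ^ 2 + 2 * κ * ‖σ‖ * ‖β‖) * (1.06 * Real.pi * |s| * |v| * EE s v) := by
    rw [norm_mul, norm_mul, norm_real, Real.norm_eq_abs]
    refine mul_le_mul (mul_le_mul_of_nonneg_left ?_ (abs_nonneg v)) h1 (norm_nonneg _)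
      (by positivity)
    refine (norm_add_le _ _).trans (le_of_eq ?_)
    simp only [norm_mul, norm_pow, Complex.norm_I, norm_real, Real.norm_eq_abs, abs_of_pos hκ]
    simp
  have n3 : ‖((v : ℂ) ^ 2 * (2 * I * κ ^ 2 * β - κ ^ 2 * σ) - κ ^ 3 * v ^ 3) * ell s v‖ ≤
      (|v| ^ 2 * (κ ^ 2 * (2 * ‖β‖ + ‖σ‖)) + κ ^ 3 * |v| ^ 3) * (1.03 * EE s v) := by
    rw [norm_mul]
    refine mul_le_mul ?_ h3 (norm_nonneg _) (by positivity)
    refine (norm_sub_le _ _).trans ?_
    refine add_le_add ?_ (le_of_eq ?_)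
    · rw [norm_mul, norm_pow, norm_real, Real.norm_eq_abs]
      refine mul_le_mul_of_nonneg_left ?_ (by positivity)
      refine (norm_sub_le _ _).trans (le_of_eq ?_)
      simp only [norm_mul, norm_pow, Complex.norm_I, norm_real, Real.norm_eq_abs, abs_of_pos hκ]
      simp
      ring
    · simp only [norm_mul, norm_pow, norm_real, Real.norm_eq_abs, abs_of_pos hκ]
  refine (norm_add₃_le).trans ((add_le_add (add_le_add n1 n2) n3).trans (le_of_eq ?_))
  have hv2 : v ^ 2 = |v| ^ 2 := (sq_abs v).symm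
  rw [hv2]
  ring

theorem r1v : R1vStatement := by
  intro κ t0 ch s ht0 ht1 hκ _ _ hs X hX hXb
  have hκ0 : 0 < κ := by rcases hκ with h | h <;> rw [h] <;> norm_num
  have hz := zz_ge t0 ht0 ht1
  set z := zz t0 with hzdef
  clear_value z
  have hz0 : 0 < z := by linarith
  have hle : (-(3 / 10 : ℝ)) ≤ 3 / 10 := by norm_num
  have huI : uIcc (-(3 / 10 : ℝ)) (3 / 10) = Icc (-(3 / 10)) (3 / 10) := uIcc_of_le hle
  have hpi := Real.pi_pos
  -- moments
  obtain ⟨l0, l1, -, -⟩ := lap0 z hz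
  have m0 := lape z s hz hs 0 1.1 (by simp)
  have m1 := lape z s hz hs 1 0.97 (by simp)
  have m2 := lape z s hz hs 2 1.33 (by simp)
  have m3 := lape z s hz hs 3 2.33 (by simp)
  have hR0 : 0 ≤ Real.sqrt (2 * Real.pi / z) := Real.sqrt_nonneg _
  have hw0 : 0 < (Real.sqrt z)⁻¹ := by positivity
  have hw2 : (Real.sqrt z)⁻¹ ^ 2 ≤ 0.003049 := by
    rw [inv_sqrt_sq z hz0, inv_le_comm₀ hz0 (by norm_num)]
    norm_num
    linarith
  have hzi : 1 / z ≤ 0.003049 := by
    have := inv_sqrt_sq z hz0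
    rw [this] at hw2
    rwa [one_div]
  have hw1 : (Real.sqrt z)⁻¹ ≤ 0.05522 := by
    have : (Real.sqrt z)⁻¹ ^ 2 ≤ 0.05522 ^ 2 := hw2.trans (by norm_num)
    exact (pow_le_pow_iff_left₀ hw0.le (by norm_num) two_ne_zero).1 this
  have hw3 : (Real.sqrt z)⁻¹ ^ 3 ≤ 0.0001684 := by
    have : (Real.sqrt z)⁻¹ ^ 3 = (Real.sqrt z)⁻¹ ^ 2 * (Real.sqrt z)⁻¹ := by ring
    rw [this]
    have := mul_le_mul hw2 hw1 hw0.le (by norm_num)
    refine this.trans (by norm_num)
  set R := Real.sqrt (2 * Real.pi / z) with hRdef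
  set w := (Real.sqrt z)⁻¹ with hwdef
  clear_value R w
  set σ := sg κ s with hσ
  set β := bt κ ch s with hβ
  set g0 : ℂ := σ * β ^ 2 with hg0
  set g1 : ℂ := κ * β ^ 2 + 2 * I * κ * σ * β +
        σ * β ^ 2 * (I * (Real.pi * s * Real.tanh (Real.pi * s) : ℝ)) with hg1
  set W : ℝ → ℂ := fun v => (KK z v : ℂ) * cexp (I * psi z v) with hW
  set P : ℝ → ℂ := fun v => (σ + κ * v) * (β + I * κ * v) ^ 2 with hP
  set Rm : ℝ → ℂ := fun v => ell s v * P v - g0 - g1 * v with hRm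
  have cW : Continuous W := by
    have h1 := continuous_KK z
    have h2 := continuous_psi z
    exact (Complex.continuous_ofReal.comp h1).mul
      (Complex.continuous_exp.comp (continuous_const.mul (Complex.continuous_ofReal.comp h2)))
  have cP : Continuous P := by
    have : Continuous fun v : ℝ => (v : ℂ) := Complex.continuous_ofReal
    fun_prop
  have cE := continuousOn_ell s
  have cRm : ContinuousOn Rm (Icc (-(3 / 10)) (3 / 10)) := by
    refine ((cE.mul cP.continuousOn).sub continuousOn_const).sub ?_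
    exact (continuous_const.mul Complex.continuous_ofReal).continuousOn
  have cXP : ContinuousOn (fun v => W v * ell s v * (X v - P v)) (Icc (-(3 / 10)) (3 / 10)) :=
    (cW.continuousOn.mul cE).mul (hX.sub cP.continuousOn)
  have iXP : IntervalIntegrable (fun v => W v * ell s v * (X v - P v)) volume
      (-(3 / 10)) (3 / 10) := ContinuousOn.intervalIntegrable (by rw [huI]; exact cXP)
  have iW : IntervalIntegrable (fun v => g0 * W v) volume (-(3 / 10)) (3 / 10) :=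
    (continuous_const.mul cW).intervalIntegrable _ _
  have iWv : IntervalIntegrable (fun v : ℝ => g1 * (W v * v)) volume (-(3 / 10)) (3 / 10) :=
    (continuous_const.mul (cW.mul Complex.continuous_ofReal)).intervalIntegrable _ _
  have iR : IntervalIntegrable (fun v => W v * Rm v) volume (-(3 / 10)) (3 / 10) :=
    ContinuousOn.intervalIntegrable (by rw [huI]; exact cW.continuousOn.mul cRm)
  have split : ∫ v in (-(3 / 10 : ℝ))..(3 / 10), (KK z v : ℂ) * cexp (I * psi z v) * ell s v * X v =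
      (∫ v in (-(3 / 10 : ℝ))..(3 / 10), W v * ell s v * (X v - P v)) +
      (g0 * (∫ v in (-(3 / 10 : ℝ))..(3 / 10), W v) +
      (g1 * (∫ v in (-(3 / 10 : ℝ))..(3 / 10), W v * v) +
      ∫ v in (-(3 / 10 : ℝ))..(3 / 10), W v * Rm v)) := by
    rw [← intervalIntegral.integral_const_mul, ← intervalIntegral.integral_const_mul,
      ← intervalIntegral.integral_add iWv iR, ← intervalIntegral.integral_add iW (iWv.add iR),
      ← intervalIntegral.integral_add iXP (iW.add (iWv.add iR))]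
    refine intervalIntegral.integral_congr (fun v _ => ?_)
    simp only [hW, hRm]
    ring
  -- the four pieces
  have cKE : Continuous fun v : ℝ => KK z v * EE s v := (continuous_KK z).mul (continuous_EE s)
  have cK : ∀ j : ℕ, IntervalIntegrable (fun v : ℝ => KK z v * EE s v * |v| ^ j) volume
      (-(3 / 10)) (3 / 10) := fun j =>
    (cKE.mul (by fun_prop : Continuous fun v : ℝ => |v| ^ j)).intervalIntegrable _ _
  set a := ‖σ‖ with ha
  set b := ‖β‖ with hb
  have ha0 : 0 ≤ a := norm_nonneg _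
  have hb0 : 0 ≤ b := norm_nonneg _
  set c2 : ℝ := a * b ^ 2 * 0.515 * (Real.pi ^ 2 * s ^ 2 + 6.7 * |s| + 1.2) +
        (κ * b ^ 2 + 2 * κ * a * b) * 1.06 * Real.pi * |s| +
        1.03 * κ ^ 2 * (2 * b + a) with hc2
  have hc20 : 0 ≤ c2 := by positivity
  have p1 : ‖∫ v in (-(3 / 10 : ℝ))..(3 / 10), W v * Rm v‖ ≤
      c2 * (1.33 * R * w ^ 2) + 1.03 * κ ^ 3 * (2.33 * R * w ^ 3) := by
    have h1 : ‖∫ v in (-(3 / 10 : ℝ))..(3 / 10), W v * Rm v‖ ≤
        ∫ v in (-(3 / 10 : ℝ))..(3 / 10), (c2 * (KK z v * EE s v * |v| ^ 2) +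
          1.03 * κ ^ 3 * (KK z v * EE s v * |v| ^ 3)) := by
      refine intervalIntegral.norm_integral_le_of_norm_le hle ?_ ?_
      · refine Filter.Eventually.of_forall (fun v hv => ?_)
        have hv' : |v| ≤ 3 / 10 := abs_le.2 ⟨hv.1.le, hv.2⟩
        have h2 := rem_bound κ ch s v hκ0 hv'
        rw [norm_mul]
        simp only [hW]
        rw [norm_W]
        calc KK z v * ‖Rm v‖ ≤ KK z v * (c2 * (EE s v * |v| ^ 2) +
              1.03 * κ ^ 3 * (EE s v * |v| ^ 3)) :=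
              mul_le_mul_of_nonneg_left h2 (KK_pos z v).le
          _ = _ := by ring
      · exact ((cK 2).const_mul _).add ((cK 3).const_mul _)
    refine h1.trans ?_
    rw [intervalIntegral.integral_add ((cK 2).const_mul _) ((cK 3).const_mul _),
      intervalIntegral.integral_const_mul, intervalIntegral.integral_const_mul]
    exact add_le_add (mul_le_mul_of_nonneg_left m2 hc20)
      (mul_le_mul_of_nonneg_left m3 (by positivity))
  set η : ℝ := 1 / 40 + a ^ 2 / 50 with hη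
  have hη0 : 0 ≤ η := by positivity
  have p2 : ‖∫ v in (-(3 / 10 : ℝ))..(3 / 10), W v * ell s v * (X v - P v)‖ ≤
      1.03 * η * (a * b ^ 2) * (1.1 * R * w ^ 0) +
      (1.03 * η * (κ * (b ^ 2 + 2 * a * b)) * (0.97 * R * w ^ 1) +
      (1.03 * η * (κ ^ 2 * (2 * b + a)) * (1.33 * R * w ^ 2) +
      1.03 * η * κ ^ 3 * (2.33 * R * w ^ 3))) := by
    have h1 : ‖∫ v in (-(3 / 10 : ℝ))..(3 / 10), W v * ell s v * (X v - P v)‖ ≤
        ∫ v in (-(3 / 10 : ℝ))..(3 / 10),
          (1.03 * η * (a * b ^ 2) * (KK z v * EE s v * |v| ^ 0) +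
          (1.03 * η * (κ * (b ^ 2 + 2 * a * b)) * (KK z v * EE s v * |v| ^ 1) +
          (1.03 * η * (κ ^ 2 * (2 * b + a)) * (KK z v * EE s v * |v| ^ 2) +
          1.03 * η * κ ^ 3 * (KK z v * EE s v * |v| ^ 3)))) := by
      refine intervalIntegral.norm_integral_le_of_norm_le hle ?_ ?_
      · refine Filter.Eventually.of_forall (fun v hv => ?_)
        have hv' : |v| ≤ 3 / 10 := abs_le.2 ⟨hv.1.le, hv.2⟩
        have h2 := hXb v hv'
        have h3 := ell_norm103 s v hv'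
        have h4 : ‖σ + κ * v‖ ≤ a + κ * |v| := by
          refine (norm_add_le _ _).trans (le_of_eq ?_)
          rw [norm_mul, norm_real, norm_real, Real.norm_eq_abs, Real.norm_eq_abs, abs_of_pos hκ0]
        have h5 : ‖β + I * κ * v‖ ≤ b + κ * |v| := by
          refine (norm_add_le _ _).trans (le_of_eq ?_)
          rw [norm_mul, norm_mul, Complex.norm_I, one_mul, norm_real, norm_real, Real.norm_eq_abs,
            Real.norm_eq_abs, abs_of_pos hκ0]
        have h6 : ‖σ + κ * v‖ * ‖β + I * κ * v‖ ^ 2 ≤ (a + κ * |v|) * (b + κ * |v|) ^ 2 :=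
          mul_le_mul h4 (pow_le_pow_left₀ (norm_nonneg _) h5 2) (by positivity) (by positivity)
        rw [norm_mul, norm_mul]
        simp only [hW]
        rw [norm_W]
        have h7 : ‖X v - P v‖ ≤ η * ((a + κ * |v|) * (b + κ * |v|) ^ 2) :=
          h2.trans (mul_le_mul_of_nonneg_left h6 hη0)
        calc KK z v * ‖ell s v‖ * ‖X v - P v‖
            ≤ KK z v * (1.03 * EE s v) * (η * ((a + κ * |v|) * (b + κ * |v|) ^ 2)) := by
              have hK := (KK_pos z v).le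
              have hE := (EE_pos s v).le
              exact mul_le_mul (mul_le_mul_of_nonneg_left h3 hK) h7 (norm_nonneg _) (by positivity)
          _ = _ := by ring
      · exact ((cK 0).const_mul _).add (((cK 1).const_mul _).add
          (((cK 2).const_mul _).add ((cK 3).const_mul _)))
    refine h1.trans ?_
    rw [intervalIntegral.integral_add ((cK 0).const_mul _) (((cK 1).const_mul _).add
          (((cK 2).const_mul _).add ((cK 3).const_mul _))),
      intervalIntegral.integral_add ((cK 1).const_mul _)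
          (((cK 2).const_mul _).add ((cK 3).const_mul _)),
      intervalIntegral.integral_add ((cK 2).const_mul _) ((cK 3).const_mul _),
      intervalIntegral.integral_const_mul, intervalIntegral.integral_const_mul,
      intervalIntegral.integral_const_mul, intervalIntegral.integral_const_mul]
    exact add_le_add (mul_le_mul_of_nonneg_left m0 (by positivity))
      (add_le_add (mul_le_mul_of_nonneg_left m1 (by positivity))
      (add_le_add (mul_le_mul_of_nonneg_left m2 (by positivity))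
        (mul_le_mul_of_nonneg_left m3 (by positivity))))
  have n0 : ‖g0‖ = a * b ^ 2 := by rw [hg0, norm_mul, norm_pow]
  have n1 : ‖g1‖ ≤ κ * b ^ 2 + 2 * κ * a * b + a * b ^ 2 * Real.pi * |s| := by
    refine (norm_add_le _ _).trans (add_le_add ?_ ?_)
    · refine (norm_add_le _ _).trans (le_of_eq ?_)
      simp only [norm_mul, norm_pow, Complex.norm_I, norm_real, Real.norm_eq_abs, abs_of_pos hκ0]
      rw [ha, hb]
      simp
    · rw [norm_mul, norm_mul, norm_pow, norm_mul, Complex.norm_I, one_mul, norm_real,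
        Real.norm_eq_abs, abs_mul, abs_mul, abs_of_pos hpi]
      have h1 := abs_tanh_le_one (Real.pi * s)
      calc a * b ^ 2 * (Real.pi * |s| * |Real.tanh (Real.pi * s)|)
          ≤ a * b ^ 2 * (Real.pi * |s| * 1) := by
            refine mul_le_mul_of_nonneg_left ?_ (by positivity)
            exact mul_le_mul_of_nonneg_left h1 (by positivity)
        _ = _ := by ring
  have p3 : ‖g0 * (∫ v in (-(3 / 10 : ℝ))..(3 / 10), W v) - g0 * R‖ ≤ a * b ^ 2 * (5 / z * R) := by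
    rw [← mul_sub, norm_mul, n0]
    exact mul_le_mul_of_nonneg_left l0 (by positivity)
  have p4 : ‖g1 * (∫ v in (-(3 / 10 : ℝ))..(3 / 10), W v * v)‖ ≤
      (κ * b ^ 2 + 2 * κ * a * b + a * b ^ 2 * Real.pi * |s|) * (2.2 / z * R) := by
    rw [norm_mul]
    exact mul_le_mul n1 l1 (norm_nonneg _) (by positivity)
  rw [split]
  have tot : (∫ v in (-(3 / 10 : ℝ))..(3 / 10), W v * ell s v * (X v - P v)) +
      (g0 * (∫ v in (-(3 / 10 : ℝ))..(3 / 10), W v) +
      (g1 * (∫ v in (-(3 / 10 : ℝ))..(3 / 10), W v * v) +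
      ∫ v in (-(3 / 10 : ℝ))..(3 / 10), W v * Rm v)) - g0 * R =
      (∫ v in (-(3 / 10 : ℝ))..(3 / 10), W v * ell s v * (X v - P v)) +
      (g0 * (∫ v in (-(3 / 10 : ℝ))..(3 / 10), W v) - g0 * R) +
      (g1 * (∫ v in (-(3 / 10 : ℝ))..(3 / 10), W v * v)) +
      ∫ v in (-(3 / 10 : ℝ))..(3 / 10), W v * Rm v := by ring
  rw [tot]
  refine (norm_add_le _ _).trans ((add_le_add ((norm_add₃_le).trans
    (add_le_add (add_le_add p2 p3) p4)) p1).trans ?_)
  -- the numerical comparison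
  have q1 : 1.33 * w ^ 2 ≤ 0.0041 := by linarith
  have q2 : 1.03 * (2.33 * w ^ 3) ≤ 0.00041 := by linarith
  have q3 : 1.03 * (0.97 * w) ≤ 0.056 := by linarith
  have q4 : 1.03 * (1.33 * w ^ 2) ≤ 0.0042 := by linarith
  have q5 : 5 / z ≤ 5 * 0.00305 := by
    have : 5 / z = 5 * (1 / z) := by ring
    rw [this]; linarith
  have q6 : 2.2 / z ≤ 2.2 * 0.00305 := by
    have : 2.2 / z = 2.2 * (1 / z) := by ring
    rw [this]; linarith
  have hQ : Qf κ ch s = 0.00305 * (5 * a * b ^ 2 + 2.2 * (κ * b ^ 2 + 2 * κ * a * b +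
      a * b ^ 2 * Real.pi * |s|)) + 0.0041 * c2 + 0.00042 * κ ^ 3 +
      η * (1.14 * a * b ^ 2 + 0.056 * κ * (b ^ 2 + 2 * a * b) +
    0.0042 * κ ^ 2 * (2 * b + a) + 0.00041 * κ ^ 3) := rfl
  rw [hQ]
  have r1 : c2 * (1.33 * R * w ^ 2) ≤ R * (0.0041 * c2) := by
    have h := mul_le_mul_of_nonneg_left q1 (by positivity : 0 ≤ c2 * R)
    calc c2 * (1.33 * R * w ^ 2) = c2 * R * (1.33 * w ^ 2) := by ring
      _ ≤ c2 * R * 0.0041 := h
      _ = _ := by ring
  have r2 : 1.03 * κ ^ 3 * (2.33 * R * w ^ 3) ≤ R * (0.00042 * κ ^ 3) := by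
    have h := mul_le_mul_of_nonneg_left (q2.trans (by norm_num : (0.00041 : ℝ) ≤ 0.00042))
      (by positivity : 0 ≤ κ ^ 3 * R)
    calc 1.03 * κ ^ 3 * (2.33 * R * w ^ 3) = κ ^ 3 * R * (1.03 * (2.33 * w ^ 3)) := by ring
      _ ≤ κ ^ 3 * R * 0.00042 := h
      _ = _ := by ring
  have r3 : 1.03 * η * (a * b ^ 2) * (1.1 * R * w ^ 0) ≤ R * (η * (1.14 * a * b ^ 2)) := by
    have h := mul_le_mul_of_nonneg_left (by norm_num : (1.03 * 1.1 : ℝ) ≤ 1.14)
      (by positivity : 0 ≤ η * (a * b ^ 2) * R)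
    calc 1.03 * η * (a * b ^ 2) * (1.1 * R * w ^ 0) = η * (a * b ^ 2) * R * (1.03 * 1.1) := by ring
      _ ≤ η * (a * b ^ 2) * R * 1.14 := h
      _ = _ := by ring
  have r4 : 1.03 * η * (κ * (b ^ 2 + 2 * a * b)) * (0.97 * R * w ^ 1) ≤
      R * (η * (0.056 * κ * (b ^ 2 + 2 * a * b))) := by
    have h := mul_le_mul_of_nonneg_left q3 (by positivity : 0 ≤ η * (κ * (b ^ 2 + 2 * a * b)) * R)
    calc 1.03 * η * (κ * (b ^ 2 + 2 * a * b)) * (0.97 * R * w ^ 1) =
          η * (κ * (b ^ 2 + 2 * a * b)) * R * (1.03 * (0.97 * w)) := by ring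
      _ ≤ η * (κ * (b ^ 2 + 2 * a * b)) * R * 0.056 := h
      _ = _ := by ring
  have r5 : 1.03 * η * (κ ^ 2 * (2 * b + a)) * (1.33 * R * w ^ 2) ≤
      R * (η * (0.0042 * κ ^ 2 * (2 * b + a))) := by
    have h := mul_le_mul_of_nonneg_left q4 (by positivity : 0 ≤ η * (κ ^ 2 * (2 * b + a)) * R)
    calc 1.03 * η * (κ ^ 2 * (2 * b + a)) * (1.33 * R * w ^ 2) =
          η * (κ ^ 2 * (2 * b + a)) * R * (1.03 * (1.33 * w ^ 2)) := by ring
      _ ≤ η * (κ ^ 2 * (2 * b + a)) * R * 0.0042 := h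
      _ = _ := by ring
  have r6 : 1.03 * η * κ ^ 3 * (2.33 * R * w ^ 3) ≤ R * (η * (0.00041 * κ ^ 3)) := by
    have h := mul_le_mul_of_nonneg_left q2 (by positivity : 0 ≤ η * κ ^ 3 * R)
    calc 1.03 * η * κ ^ 3 * (2.33 * R * w ^ 3) = η * κ ^ 3 * R * (1.03 * (2.33 * w ^ 3)) := by ring
      _ ≤ η * κ ^ 3 * R * 0.00041 := h
      _ = _ := by ring
  have r7 : a * b ^ 2 * (5 / z * R) ≤ R * (0.00305 * (5 * a * b ^ 2)) := by
    have h := mul_le_mul_of_nonneg_left q5 (by positivity : 0 ≤ a * b ^ 2 * R)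
    calc a * b ^ 2 * (5 / z * R) = a * b ^ 2 * R * (5 / z) := by ring
      _ ≤ a * b ^ 2 * R * (5 * 0.00305) := h
      _ = _ := by ring
  have r8 : (κ * b ^ 2 + 2 * κ * a * b + a * b ^ 2 * Real.pi * |s|) * (2.2 / z * R) ≤
      R * (0.00305 * (2.2 * (κ * b ^ 2 + 2 * κ * a * b + a * b ^ 2 * Real.pi * |s|))) := by
    have h := mul_le_mul_of_nonneg_left q6
      (by positivity : 0 ≤ (κ * b ^ 2 + 2 * κ * a * b + a * b ^ 2 * Real.pi * |s|) * R)
    calc _ = (κ * b ^ 2 + 2 * κ * a * b + a * b ^ 2 * Real.pi * |s|) * R * (2.2 / z) := by ring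
      _ ≤ (κ * b ^ 2 + 2 * κ * a * b + a * b ^ 2 * Real.pi * |s|) * R * (2.2 * 0.00305) := h
      _ = _ := by ring
  have e : R * (0.00305 * (5 * a * b ^ 2 + 2.2 * (κ * b ^ 2 + 2 * κ * a * b +
      a * b ^ 2 * Real.pi * |s|)) + 0.0041 * c2 + 0.00042 * κ ^ 3 +
      η * (1.14 * a * b ^ 2 + 0.056 * κ * (b ^ 2 + 2 * a * b) +
    0.0042 * κ ^ 2 * (2 * b + a) + 0.00041 * κ ^ 3)) =
    R * (0.00305 * (5 * a * b ^ 2)) + R * (0.00305 * (2.2 * (κ * b ^ 2 + 2 * κ * a * b +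
      a * b ^ 2 * Real.pi * |s|))) + R * (0.0041 * c2) + R * (0.00042 * κ ^ 3) +
      R * (η * (1.14 * a * b ^ 2)) + R * (η * (0.056 * κ * (b ^ 2 + 2 * a * b))) +
      R * (η * (0.0042 * κ ^ 2 * (2 * b + a))) + R * (η * (0.00041 * κ ^ 3)) := by ring
  rw [e]
  linarith

end Pool.Agent.Helper45_UR
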