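import Pool.Agent.Helper45_UR.Lap0

/-! # UR squad, module ELL -/

set_option autoImplicit false

namespace Pool.Agent.Helper45_UR

open MeasureTheory Set Pool.Agent.Helper21_UR Complex

/-! ### real inequalities -/

theorem one_add_sq_le_cosh (x : ℝ) : 1 + x ^ 2 / 2 ≤ Real.cosh x := by
  have h1 : Real.cosh x = 1 + 2 * Real.sinh (x / 2) ^ 2 := by
    have h := Real.cosh_two_mul (x / 2)
    rw [Real.cosh_sq] at h
    have h2 : 2 * (x / 2) = x := by ring
    rw [h2] at h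
    rw [h]
    ring
  have h2 : (x / 2) ^ 2 ≤ Real.sinh (x / 2) ^ 2 := by
    rcases le_total 0 (x / 2) with h | h
    · exact pow_le_pow_left₀ h (Real.self_le_sinh_iff.2 h) 2
    · have h3 := Real.sinh_le_self_iff.2 h
      nlinarith
  rw [h1]
  nlinarith

theorem two_mul_sq_le_cosh_sq (x : ℝ) : 2 * x ^ 2 ≤ Real.cosh x ^ 2 := by
  have h1 : 1 + x ^ 2 / 2 ≤ Real.cosh x := one_add_sq_le_cosh x
  have h2 : (1 + x ^ 2 / 2) ^ 2 ≤ Real.cosh x ^ 2 := pow_le_pow_left₀ (by positivity) h1 2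
  nlinarith [sq_nonneg (1 - x ^ 2 / 2)]

/-- `Y = π s / (1 + i v)` -/
noncomputable def Yc (s v : ℝ) : ℂ := (Real.pi : ℂ) * s / (1 + (v : ℂ) * I)

theorem norm_cosh_Y_lower (s v : ℝ) (hv : |v| ≤ 3 / 10) :
    0.9772 * Real.cosh (Real.pi * s / (1 + v ^ 2)) ≤ ‖cosh (Yc s v)‖ := by
  have h1 := norm_cosh_div_sq s v
  have h2 := sin_sq_le_sq (Real.pi * s / (1 + v ^ 2) * v)
  have h3 := two_mul_sq_le_cosh_sq (Real.pi * s / (1 + v ^ 2))
  have h4 : v ^ 2 ≤ 0.09 := by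
    rw [← sq_abs]
    nlinarith [abs_nonneg v]
  have h5 := Real.cosh_pos (Real.pi * s / (1 + v ^ 2))
  rw [← sq_le_sq₀ (by positivity) (norm_nonneg _)]
  unfold Yc
  rw [h1]
  have h6 : (Real.pi * s / (1 + v ^ 2) * v) ^ 2 ≤ (Real.pi * s / (1 + v ^ 2)) ^ 2 * 0.09 := by
    rw [mul_pow]
    exact mul_le_mul_of_nonneg_left h4 (sq_nonneg _)
  nlinarith

theorem cosh_Y_ne (s v : ℝ) (hv : |v| ≤ 3 / 10) : cosh (Yc s v) ≠ 0 := by
  have h := norm_cosh_Y_lower s v hv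
  have h5 := Real.cosh_pos (Real.pi * s / (1 + v ^ 2))
  intro h0
  rw [h0, norm_zero] at h
  linarith

theorem norm_sinh_Y_upper (s v : ℝ) :
    ‖sinh (Yc s v)‖ ≤ Real.cosh (Real.pi * s / (1 + v ^ 2)) := by
  rw [← sq_le_sq₀ (norm_nonneg _) (Real.cosh_pos _).le]
  unfold Yc
  rw [div_one_add]
  set a := Real.pi * s / (1 + v ^ 2)
  set b := -(a * v)
  have h : sinh ((a : ℂ) + (b : ℂ) * I) =
      ((Real.sinh a * Real.cos b : ℝ) : ℂ) + ((Real.cosh a * Real.sin b : ℝ) : ℂ) * I := by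
    rw [Complex.sinh_add, cosh_mul_I, sinh_mul_I]
    push_cast
    ring
  rw [h, ← normSq_eq_norm_sq, normSq_add_mul_I]
  have h1 := Real.cosh_sq a
  have h2 := Real.sin_sq_add_cos_sq b
  have h3 : Real.cos b ^ 2 = 1 - Real.sin b ^ 2 := by linarith
  have h4 : Real.sinh a ^ 2 = Real.cosh a ^ 2 - 1 := by linarith
  rw [mul_pow, mul_pow, h4, h3]
  have h5 := sq_nonneg (Real.cosh a)
  nlinarith [sq_nonneg (Real.sin b), Real.sin_sq_le_one b]

theorem cosh_ratio (a b : ℝ) (hab : b ≤ a) :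
    Real.cosh a ≤ Real.exp (a - b) * Real.cosh b := by
  rw [Real.cosh_eq, Real.cosh_eq]
  have h1 : Real.exp (a - b) * Real.exp b = Real.exp a := by rw [← Real.exp_add]; ring_nf
  have h2 : Real.exp (-a) ≤ Real.exp (a - b) * Real.exp (-b) := by
    rw [← Real.exp_add, Real.exp_le_exp]; linarith
  have : Real.exp (a - b) * ((Real.exp b + Real.exp (-b)) / 2) =
      (Real.exp (a - b) * Real.exp b + Real.exp (a - b) * Real.exp (-b)) / 2 := by ring
  rw [this, h1]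
  linarith

theorem cosh_EE (s v : ℝ) :
    Real.cosh (Real.pi * s) ≤ EE s v * Real.cosh (Real.pi * s / (1 + v ^ 2)) := by
  have hpi := Real.pi_pos
  have h1 : Real.cosh (Real.pi * s) = Real.cosh (Real.pi * |s|) := by
    rw [← Real.cosh_abs, abs_mul, abs_of_pos hpi]
  have h2 : Real.cosh (Real.pi * s / (1 + v ^ 2)) = Real.cosh (Real.pi * |s| / (1 + v ^ 2)) := by
    rw [← Real.cosh_abs, abs_div, abs_mul, abs_of_pos hpi, abs_of_pos (by positivity : (0:ℝ) < 1 + v ^ 2)]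
  rw [h1, h2]
  have h3 : EE s v = Real.exp (Real.pi * |s| - Real.pi * |s| / (1 + v ^ 2)) := by
    unfold EE
    congr 1
    field_simp
    ring
  rw [h3]
  refine cosh_ratio _ _ ?_
  exact div_le_self (by positivity) (by nlinarith [sq_nonneg v])

theorem EE_pos (s v : ℝ) : 0 < EE s v := Real.exp_pos _

theorem EE_mono (s : ℝ) {u v : ℝ} (h : |u| ≤ |v|) : EE s u ≤ EE s v := by
  unfold EE
  rw [Real.exp_le_exp]
  refine mul_le_mul_of_nonneg_left ?_ (by have := Real.pi_pos; positivity)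
  have h1 : u ^ 2 ≤ v ^ 2 := sq_le_sq.2 h
  rw [div_le_div_iff₀ (by positivity) (by positivity)]
  nlinarith

theorem ell_norm (s v : ℝ) (hv : |v| ≤ 3 / 10) : ‖ell s v‖ ≤ 1.0234 * EE s v := by
  have h1 := norm_cosh_Y_lower s v hv
  have h2 := cosh_EE s v
  have h3 := Real.cosh_pos (Real.pi * s / (1 + v ^ 2))
  have h4 := Real.cosh_pos (Real.pi * s)
  have h5 : ‖ell s v‖ = Real.cosh (Real.pi * s) / ‖cosh (Yc s v)‖ := by
    unfold ell Yc
    rw [norm_div]
    congr 1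
    rw [← ofReal_mul, ← ofReal_cosh, norm_real, Real.norm_eq_abs, abs_of_pos h4]
  rw [h5, div_le_iff₀ (by nlinarith)]
  have h6 := EE_pos s v
  calc Real.cosh (Real.pi * s) ≤ EE s v * Real.cosh (Real.pi * s / (1 + v ^ 2)) := h2
    _ ≤ 1.0234 * EE s v * (0.9772 * Real.cosh (Real.pi * s / (1 + v ^ 2))) := by
        have : 0 < EE s v * Real.cosh (Real.pi * s / (1 + v ^ 2)) := mul_pos h6 h3
        nlinarith
    _ ≤ 1.0234 * EE s v * ‖cosh (Yc s v)‖ := mul_le_mul_of_nonneg_left h1 (by positivity)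

/-- `tanh Y` -/
noncomputable def Tc (s v : ℝ) : ℂ := sinh (Yc s v) / cosh (Yc s v)

theorem Tc_norm (s v : ℝ) (hv : |v| ≤ 3 / 10) : ‖Tc s v‖ ≤ 1.0234 := by
  have h1 := norm_cosh_Y_lower s v hv
  have h2 := norm_sinh_Y_upper s v
  have h3 := Real.cosh_pos (Real.pi * s / (1 + v ^ 2))
  unfold Tc
  rw [norm_div, div_le_iff₀ (by nlinarith)]
  nlinarith

theorem tau_norm (v : ℝ) : 1 ≤ ‖(1 : ℂ) + (v : ℂ) * I‖ := by
  have h := Complex.abs_re_le_norm ((1 : ℂ) + (v : ℂ) * I)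
  simpa using h

theorem tau_norm_sq (v : ℝ) : ‖(1 : ℂ) + (v : ℂ) * I‖ ^ 2 = 1 + v ^ 2 := by
  have : (1 : ℂ) + (v : ℂ) * I = ((1 : ℝ) : ℂ) + (v : ℂ) * I := by simp
  rw [this, ← normSq_eq_norm_sq, normSq_add_mul_I]
  ring

theorem tau_ne (v : ℝ) : (1 : ℂ) + (v : ℂ) * I ≠ 0 := by
  intro h
  have := tau_norm v
  rw [h, norm_zero] at this
  linarith

/-! ### derivatives -/

theorem hasDeriv_tau (v : ℝ) : HasDerivAt (fun v : ℝ => (1 : ℂ) + (v : ℂ) * I) I v := by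
  have h1 : HasDerivAt (fun v : ℝ => (v : ℂ)) 1 v := Complex.ofRealCLM.hasDerivAt
  have h2 := (h1.mul_const I).const_add 1
  simpa using h2

theorem hasDeriv_Y (s v : ℝ) : HasDerivAt (fun v : ℝ => Yc s v)
    (-((Real.pi : ℂ) * s * I / (1 + (v : ℂ) * I) ^ 2)) v := by
  have h := (hasDeriv_tau v).fun_inv (tau_ne v)
  have h2 := h.const_mul ((Real.pi : ℂ) * s)
  refine HasDerivAt.congr_deriv (f' := (Real.pi : ℂ) * s * (-I / (1 + (v : ℂ) * I) ^ 2)) h2 ?_
  ring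

/-- first derivative of `ell` -/
noncomputable def f1 (s v : ℝ) : ℂ :=
  I * (Real.pi * s) * Tc s v / (1 + (v : ℂ) * I) ^ 2 * ell s v

/-- second derivative of `ell` -/
noncomputable def f2 (s v : ℝ) : ℂ :=
  ((Real.pi * s) ^ 2 * (2 / cosh (Yc s v) ^ 2 - 1) / (1 + (v : ℂ) * I) ^ 4 +
    2 * (Real.pi * s) * Tc s v / (1 + (v : ℂ) * I) ^ 3) * ell s v

theorem hasDeriv_ell (s v : ℝ) (hv : |v| ≤ 3 / 10) :
    HasDerivAt (fun v : ℝ => ell s v) (f1 s v) v := by
  have hc := cosh_Y_ne s v hv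
  have ht := tau_ne v
  have h1 := HasDerivAt.comp v (Complex.hasDerivAt_cosh (Yc s v)) (hasDeriv_Y s v)
  have h2 := h1.inv hc
  have h3 := h2.const_mul (cosh ((Real.pi : ℂ) * s))
  refine HasDerivAt.congr_deriv h3 ?_
  simp only [Function.comp_apply]
  unfold f1 Tc
  have e2 : ell s v = cosh ((Real.pi : ℂ) * s) / cosh (Yc s v) := rfl
  rw [e2]
  field_simp

theorem hasDeriv_Tc (s v : ℝ) (hv : |v| ≤ 3 / 10) :
    HasDerivAt (fun v : ℝ => Tc s v)
      (-((Real.pi : ℂ) * s * I / (1 + (v : ℂ) * I) ^ 2) / cosh (Yc s v) ^ 2) v := by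
  have hc := cosh_Y_ne s v hv
  have h1 := HasDerivAt.comp v (Complex.hasDerivAt_sinh (Yc s v)) (hasDeriv_Y s v)
  have h2 := HasDerivAt.comp v (Complex.hasDerivAt_cosh (Yc s v)) (hasDeriv_Y s v)
  have h3 := h1.div h2 hc
  refine HasDerivAt.congr_deriv h3 ?_
  simp only [Function.comp_apply]
  have h4 := Complex.cosh_sq (Yc s v)
  congr 1
  have h5 : cosh (Yc s v) * cosh (Yc s v) = sinh (Yc s v) * sinh (Yc s v) + 1 := by
    rw [← sq, ← sq]; exact h4
  linear_combination (-((Real.pi : ℂ) * s * I / (1 + (v : ℂ) * I) ^ 2)) * h5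

theorem hasDeriv_f1 (s v : ℝ) (hv : |v| ≤ 3 / 10) :
    HasDerivAt (fun v : ℝ => f1 s v) (f2 s v) v := by
  have hc := cosh_Y_ne s v hv
  have ht := tau_ne v
  have h1 := hasDeriv_Tc s v hv
  have h2 := hasDeriv_ell s v hv
  have h3 := (hasDeriv_tau v).fun_pow 2
  have h4 := ((h1.const_mul (I * (Real.pi * s))).fun_div h3 (pow_ne_zero 2 ht)).fun_mul h2
  refine HasDerivAt.congr_deriv h4 ?_
  unfold Pool.Agent.Helper45_UR.f2 Pool.Agent.Helper45_UR.f1
  have h5 : sinh (Yc s v) ^ 2 = cosh (Yc s v) ^ 2 - 1 := by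
    rw [Complex.cosh_sq]; ring
  have hT : Tc s v ^ 2 = 1 - 1 / cosh (Yc s v) ^ 2 := by
    unfold Tc
    rw [div_pow, h5]
    field_simp
  set T := Tc s v
  set τ : ℂ := 1 + (v : ℂ) * I
  set C := cosh (Yc s v)
  have hI : I ^ 2 = -1 := I_sq
  have hT' : T ^ 2 * C ^ 2 = C ^ 2 - 1 := by
    rw [hT]; field_simp
  field_simp
  simp only [Nat.cast_ofNat, Nat.add_one_sub_one, pow_one]
  ring_nf
  rw [hI]
  ring_nf
  linear_combination (-((Real.pi : ℂ) * (s : ℂ) ^ 2 * ell s v)) * hT'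

/-! ### bounds of the derivatives -/

theorem norm_pi_s (s : ℝ) : ‖(Real.pi : ℂ) * s‖ = Real.pi * |s| := by
  rw [norm_mul, norm_real, norm_real, Real.norm_eq_abs, Real.norm_eq_abs, abs_of_pos Real.pi_pos]

theorem f1_norm (s v : ℝ) (hv : |v| ≤ 3 / 10) :
    ‖f1 s v‖ ≤ 1.06 * Real.pi * |s| * EE s v := by
  have h1 := Tc_norm s v hv
  have h2 := ell_norm s v hv
  have h3 := tau_norm v
  have h4 := EE_pos s v
  have hpi := Real.pi_pos
  have hs := abs_nonneg s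
  unfold Pool.Agent.Helper45_UR.f1
  rw [norm_mul, norm_div, norm_mul, norm_mul, Complex.norm_I, one_mul, norm_pi_s, norm_pow]
  have h5 : Real.pi * |s| * ‖Tc s v‖ / ‖(1 : ℂ) + (v : ℂ) * I‖ ^ 2 ≤ Real.pi * |s| * 1.0234 := by
    refine (div_le_self (by positivity) (one_le_pow₀ h3)).trans ?_
    exact mul_le_mul_of_nonneg_left h1 (by positivity)
  calc _ ≤ (Real.pi * |s| * 1.0234) * (1.0234 * EE s v) :=
        mul_le_mul h5 h2 (norm_nonneg _) (by positivity)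
    _ = (1.0234 * 1.0234) * (Real.pi * |s| * EE s v) := by ring
    _ ≤ 1.06 * (Real.pi * |s| * EE s v) :=
        mul_le_mul_of_nonneg_right (by norm_num) (by positivity)
    _ = _ := by ring

theorem f2_norm (s v : ℝ) (hv : |v| ≤ 3 / 10) :
    ‖f2 s v‖ ≤ (Real.pi ^ 2 * s ^ 2 + 6.7 * |s| + 1.2) * 1.03 * EE s v := by
  have h1 := Tc_norm s v hv
  have h2 := ell_norm s v hv
  have h3 := tau_norm v
  have h3' := tau_norm_sq v
  have h4 := EE_pos s v
  have hpi := Real.pi_pos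
  have hs := abs_nonneg s
  have hc := norm_cosh_Y_lower s v hv
  have hc0 := Real.cosh_pos (Real.pi * s / (1 + v ^ 2))
  have hcs := two_mul_sq_le_cosh_sq (Real.pi * s / (1 + v ^ 2))
  have hC : 0 < ‖cosh (Yc s v)‖ := by nlinarith
  unfold Pool.Agent.Helper45_UR.f2
  rw [norm_mul]
  -- first term
  have e1 : ‖((Real.pi : ℂ) * s) ^ 2 * (2 / cosh (Yc s v) ^ 2 - 1) / (1 + (v : ℂ) * I) ^ 4‖ ≤
      Real.pi ^ 2 * s ^ 2 + 1.048 := by
    rw [norm_div, norm_mul, norm_pow, norm_pow, norm_pi_s]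
    have e2 : ‖(2 : ℂ) / cosh (Yc s v) ^ 2 - 1‖ ≤ 2 / ‖cosh (Yc s v)‖ ^ 2 + 1 := by
      refine (norm_sub_le _ _).trans ?_
      rw [norm_div, norm_pow, norm_one]
      simp
    have e3 : ‖(1 : ℂ) + (v : ℂ) * I‖ ^ 4 = (1 + v ^ 2) ^ 2 := by
      rw [← h3']; ring
    rw [e3]
    have e4 : (Real.pi * |s|) ^ 2 * ‖(2 : ℂ) / cosh (Yc s v) ^ 2 - 1‖ / (1 + v ^ 2) ^ 2 ≤
        (Real.pi * s / (1 + v ^ 2)) ^ 2 * (2 / ‖cosh (Yc s v)‖ ^ 2 + 1) := by
      rw [div_pow, div_mul_eq_mul_div, mul_pow, mul_pow, sq_abs]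
      exact div_le_div_of_nonneg_right (mul_le_mul_of_nonneg_left e2 (by positivity)) (by positivity)
    refine e4.trans ?_
    have e5 : (Real.pi * s / (1 + v ^ 2)) ^ 2 * (2 / ‖cosh (Yc s v)‖ ^ 2) ≤ 1.048 := by
      rw [mul_div_assoc', div_le_iff₀ (by positivity)]
      have e6 : (0.9772 * Real.cosh (Real.pi * s / (1 + v ^ 2))) ^ 2 ≤ ‖cosh (Yc s v)‖ ^ 2 :=
        pow_le_pow_left₀ (by positivity) hc 2
      nlinarith
    have e7 : (Real.pi * s / (1 + v ^ 2)) ^ 2 ≤ Real.pi ^ 2 * s ^ 2 := by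
      rw [div_pow, mul_pow]
      exact div_le_self (by positivity) (one_le_pow₀ (by nlinarith [sq_nonneg v]))
    linarith
  have e2 : ‖(2 : ℂ) * (Real.pi * s) * Tc s v / (1 + (v : ℂ) * I) ^ 3‖ ≤ 6.44 * |s| := by
    rw [norm_div, norm_mul, norm_mul, norm_pow, norm_pi_s]
    refine (div_le_self (by positivity) (one_le_pow₀ h3)).trans ?_
    have h5 : ‖(2 : ℂ)‖ = 2 := by simp
    rw [h5]
    have h6 : Real.pi * |s| ≤ 3.1416 * |s| :=
      mul_le_mul_of_nonneg_right (by linarith [Real.pi_lt_d4]) hs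
    calc 2 * (Real.pi * |s|) * ‖Tc s v‖ ≤ 2 * (3.1416 * |s|) * 1.0234 :=
          mul_le_mul (by linarith) h1 (norm_nonneg _) (by positivity)
      _ ≤ 6.44 * |s| := by nlinarith
  have e3 := norm_add_le (((Real.pi : ℂ) * s) ^ 2 * (2 / cosh (Yc s v) ^ 2 - 1) /
    (1 + (v : ℂ) * I) ^ 4) ((2 : ℂ) * (Real.pi * s) * Tc s v / (1 + (v : ℂ) * I) ^ 3)
  have e4 : 0 ≤ Real.pi ^ 2 * s ^ 2 := by positivity
  calc _ ≤ (Real.pi ^ 2 * s ^ 2 + 1.048 + 6.44 * |s|) * (1.0234 * EE s v) :=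
        mul_le_mul (by linarith) h2 (norm_nonneg _) (by positivity)
    _ = ((Real.pi ^ 2 * s ^ 2 + 1.048 + 6.44 * |s|) * 1.0234) * EE s v := by ring
    _ ≤ ((Real.pi ^ 2 * s ^ 2 + 6.7 * |s| + 1.2) * 1.03) * EE s v := by
        refine mul_le_mul_of_nonneg_right ?_ h4.le
        nlinarith
    _ = _ := by ring

/-! ### the statement -/

theorem ell_zero (s : ℝ) : ell s 0 = 1 := by
  unfold ell
  simp only [ofReal_zero, zero_mul, add_zero, div_one]
  refine div_self ?_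
  rw [← ofReal_mul, ← ofReal_cosh]
  exact_mod_cast (Real.cosh_pos _).ne'

theorem f1_zero (s : ℝ) : f1 s 0 = I * (Real.pi * s * Real.tanh (Real.pi * s) : ℝ) := by
  unfold Pool.Agent.Helper45_UR.f1 Tc Yc
  rw [ell_zero]
  simp only [ofReal_zero, zero_mul, add_zero, div_one, one_pow, mul_one]
  rw [Real.tanh_eq_sinh_div_cosh]
  push_cast
  ring

theorem ell_first (s v : ℝ) (hv : |v| ≤ 3 / 10) :
    ‖ell s v - 1‖ ≤ 1.06 * Real.pi * |s| * |v| * EE s v := by
  have hr : ∀ r ∈ Icc (0 : ℝ) 1, |r * v| ≤ |v| := by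
    intro r hr
    rw [abs_mul, abs_of_nonneg hr.1]
    exact mul_le_of_le_one_left (abs_nonneg v) hr.2
  have hd : ∀ r ∈ Icc (0 : ℝ) 1, HasDerivWithinAt (fun r : ℝ => ell s (r * v))
      (v • f1 s (r * v)) (Icc 0 1) r := by
    intro r hr'
    have h1 := hasDeriv_ell s (r * v) ((hr r hr').trans hv)
    have h2 : HasDerivAt (fun r : ℝ => r * v) v r := by simpa using (hasDerivAt_id r).mul_const v
    exact (HasDerivAt.scomp r h1 h2).hasDerivWithinAt
  have h := norm_image_sub_le_of_norm_deriv_le_segment_01' hd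
    (C := 1.06 * Real.pi * |s| * |v| * EE s v) (fun r hr' => by
      have hr'' : r ∈ Icc (0 : ℝ) 1 := ⟨hr'.1, hr'.2.le⟩
      rw [norm_smul, Real.norm_eq_abs]
      have h1 := f1_norm s (r * v) ((hr r hr'').trans hv)
      have h2 := EE_mono s (hr r hr'')
      have hpi := Real.pi_pos
      calc |v| * ‖f1 s (r * v)‖ ≤ |v| * (1.06 * Real.pi * |s| * EE s v) := by
            refine mul_le_mul_of_nonneg_left (h1.trans ?_) (abs_nonneg v)
            exact mul_le_mul_of_nonneg_left h2 (by positivity)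
        _ = _ := by ring)
  simpa [ell_zero] using h

theorem ell_second (s v : ℝ) (hv : |v| ≤ 3 / 10) :
    ‖ell s v - 1 - I * (Real.pi * s * Real.tanh (Real.pi * s) * v : ℝ)‖ ≤
      v ^ 2 / 2 * (Real.pi ^ 2 * s ^ 2 + 6.7 * |s| + 1.2) * 1.03 * EE s v := by
  set C : ℝ := (Real.pi ^ 2 * s ^ 2 + 6.7 * |s| + 1.2) * 1.03 * EE s v with hC
  have hC0 : 0 ≤ C := by have := EE_pos s v; positivity
  have hr : ∀ r ∈ Icc (0 : ℝ) 1, |r * v| ≤ |v| := by
    intro r hr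
    rw [abs_mul, abs_of_nonneg hr.1]
    exact mul_le_of_le_one_left (abs_nonneg v) hr.2
  have hlin : ∀ r : ℝ, HasDerivAt (fun r : ℝ => r * v) v r := fun r => by
    simpa using (hasDerivAt_id r).mul_const v
  -- first derivative: distance to its value at zero
  have h1 : ∀ r ∈ Icc (0 : ℝ) 1, ‖v • f1 s (r * v) - v • f1 s 0‖ ≤ C * v ^ 2 * r := by
    have hd : ∀ r ∈ Icc (0 : ℝ) 1, HasDerivWithinAt (fun r : ℝ => v • f1 s (r * v))
        (v • (v • f2 s (r * v))) (Icc 0 1) r := by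
      intro r hr'
      have h1 := hasDeriv_f1 s (r * v) ((hr r hr').trans hv)
      exact ((HasDerivAt.scomp r h1 (hlin r)).const_smul v).hasDerivWithinAt
    have h := norm_image_sub_le_of_norm_deriv_le_segment' hd (C := C * v ^ 2) (fun r hr' => by
      have hr'' : r ∈ Icc (0 : ℝ) 1 := ⟨hr'.1, hr'.2.le⟩
      rw [norm_smul, norm_smul, Real.norm_eq_abs]
      have h1 := f2_norm s (r * v) ((hr r hr'').trans hv)
      have h2 := EE_mono s (hr r hr'')
      have hpi := Real.pi_pos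
      calc |v| * (|v| * ‖f2 s (r * v)‖) = v ^ 2 * ‖f2 s (r * v)‖ := by
            rw [← mul_assoc, abs_mul_abs_self]; ring
        _ ≤ v ^ 2 * C := by
            refine mul_le_mul_of_nonneg_left (h1.trans ?_) (sq_nonneg v)
            rw [hC]
            exact mul_le_mul_of_nonneg_left h2 (by positivity)
        _ = _ := by ring)
    intro r hr'
    have h2 := h r hr'
    simpa using h2
  -- second step
  have h2 := image_norm_le_of_norm_deriv_right_le_deriv_boundary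
    (f := fun r : ℝ => ell s (r * v) - 1 - r • (v • f1 s 0))
    (f' := fun r : ℝ => v • f1 s (r * v) - v • f1 s 0) (a := 0) (b := 1)
    (B := fun r : ℝ => C * v ^ 2 * (r ^ 2 / 2)) (B' := fun r : ℝ => C * v ^ 2 * r) ?_ ?_ ?_ ?_ ?_
    (right_mem_Icc.2 zero_le_one)
  · simp only [one_mul, one_smul, one_pow] at h2
    have e1 : ell s v - 1 - I * (Real.pi * s * Real.tanh (Real.pi * s) * v : ℝ) =
        ell s v - 1 - v • f1 s 0 := by
      rw [f1_zero, real_smul]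
      push_cast
      ring
    rw [e1]
    refine h2.trans (le_of_eq ?_)
    rw [hC]
    ring
  · have : ∀ r ∈ Icc (0 : ℝ) 1, ContinuousWithinAt
        (fun r : ℝ => ell s (r * v) - 1 - r • (v • f1 s 0)) (Icc 0 1) r := by
      intro r hr'
      have h1 := (HasDerivAt.scomp r (hasDeriv_ell s (r * v) ((hr r hr').trans hv)) (hlin r))
      have h2 : ContinuousAt (fun r : ℝ => ell s (r * v)) r := h1.continuousAt
      exact ((h2.sub continuousAt_const).sub
        ((continuous_id.smul continuous_const).continuousAt)).continuousWithinAt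
    exact this
  · intro r hr'
    have hr'' : r ∈ Icc (0 : ℝ) 1 := ⟨hr'.1, hr'.2.le⟩
    have h1 := (HasDerivAt.scomp r (hasDeriv_ell s (r * v) ((hr r hr'').trans hv)) (hlin r))
    have h2 : HasDerivAt (fun r : ℝ => r • (v • f1 s 0)) ((1 : ℝ) • (v • f1 s 0)) r :=
      (hasDerivAt_id r).smul_const _
    rw [one_smul] at h2
    exact ((h1.sub_const 1).sub h2).hasDerivWithinAt
  · simp [ell_zero]
  · intro r
    have h1 := ((hasDerivAt_pow 2 r).div_const 2).const_mul (C * v ^ 2)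
    refine HasDerivAt.congr_deriv h1 ?_
    simp
  · intro r hr'
    exact h1 r ⟨hr'.1, hr'.2.le⟩

theorem ell_bounds : EllStatement := by
  intro s v hv
  refine ⟨?_, ell_first s v hv, ell_second s v hv⟩
  have h1 := ell_norm s v hv
  have h2 := EE_pos s v
  nlinarith

end Pool.Agent.Helper45_UR
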