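import Pool.Agent.Helper45_UR.Cb

/-! # UR squad: absolute moments of Gaussians -/

set_option autoImplicit false

namespace Pool.Agent.Helper45_UR

open MeasureTheory Set

/-- half line moments -/
theorem half_mom (a : ℝ) (ha : 0 < a) (j : ℕ) :
    ∫ x in Ioi (0 : ℝ), x ^ j * Real.exp (-a * x ^ 2) =
      a ^ (-((j : ℝ) + 1) / 2) * (1 / 2) * Real.Gamma (((j : ℝ) + 1) / 2) := by
  have h := integral_rpow_mul_exp_neg_mul_rpow (p := 2) (q := (j : ℝ)) (b := a) (by norm_num)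
    (by have : (0 : ℝ) ≤ j := Nat.cast_nonneg j
        linarith) ha
  rw [← h]
  refine setIntegral_congr_fun measurableSet_Ioi (fun x _ => ?_)
  simp only [Real.rpow_natCast, Real.rpow_two]

/-- Gaussian moments -/
noncomputable def gm (z β : ℝ) (j : ℕ) : ℝ := ∫ v : ℝ, |v| ^ j * Real.exp (-(z / (2 * β)) * v ^ 2)

theorem gm_int (z β : ℝ) (hz : 0 < z) (hβ : 0 < β) (j : ℕ) :
    Integrable (fun v : ℝ => |v| ^ j * Real.exp (-(z / (2 * β)) * v ^ 2)) := by
  have h := integrable_rpow_mul_exp_neg_mul_sq (b := z / (2 * β)) (by positivity) (s := (j : ℝ))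
    (by have : (0 : ℝ) ≤ j := Nat.cast_nonneg j
        linarith)
  simp only [Real.rpow_natCast] at h
  refine h.norm.congr (Filter.Eventually.of_forall (fun v => ?_))
  simp [Real.norm_eq_abs]

theorem gm_eq (z β : ℝ) (hz : 0 < z) (hβ : 0 < β) (j : ℕ) :
    gm z β j = (z / (2 * β)) ^ (-((j : ℝ) + 1) / 2) * Real.Gamma (((j : ℝ) + 1) / 2) := by
  have h1 : gm z β j = ∫ v : ℝ, (fun x : ℝ => x ^ j * Real.exp (-(z / (2 * β)) * x ^ 2)) |v| := by
    unfold gm
    simp only [sq_abs]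
  refine (h1.trans (integral_comp_abs
    (f := fun x : ℝ => x ^ j * Real.exp (-(z / (2 * β)) * x ^ 2)))).trans ?_
  rw [half_mom _ (by positivity)]
  ring

theorem gm_zero (z β : ℝ) (hz : 0 < z) (hβ : 0 < β) :
    gm z β 0 = Real.sqrt β * Real.sqrt (2 * Real.pi / z) := by
  unfold gm
  simp only [pow_zero, one_mul]
  rw [integral_gaussian, ← Real.sqrt_mul hβ.le]
  congr 1
  field_simp

theorem gm_one (z β : ℝ) (hz : 0 < z) (hβ : 0 < β) : gm z β 1 = 2 * β / z := by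
  rw [gm_eq z β hz hβ]
  have h1 : (((1 : ℕ) : ℝ) + 1) / 2 = 1 := by norm_num
  have h2 : -(((1 : ℕ) : ℝ) + 1) / 2 = -1 := by norm_num
  rw [h1, h2, Real.Gamma_one, Real.rpow_neg_one]
  field_simp

theorem gm_succ (z β : ℝ) (hz : 0 < z) (hβ : 0 < β) (j : ℕ) :
    gm z β (j + 2) = ((j : ℝ) + 1) * β / z * gm z β j := by
  rw [gm_eq z β hz hβ, gm_eq z β hz hβ]
  have h1 : (((j + 2 : ℕ) : ℝ) + 1) / 2 = ((j : ℝ) + 1) / 2 + 1 := by push_cast; ring
  have h2 : -(((j + 2 : ℕ) : ℝ) + 1) / 2 = -((j : ℝ) + 1) / 2 - 1 := by push_cast; ring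
  have h3 : ((j : ℝ) + 1) / 2 ≠ 0 := by positivity
  have h4 : 0 < z / (2 * β) := by positivity
  rw [h1, h2, Real.Gamma_add_one h3, Real.rpow_sub_one h4.ne']
  field_simp

theorem gm_nonneg (z β : ℝ) (j : ℕ) : 0 ≤ gm z β j :=
  integral_nonneg (fun v => by positivity)

/-- the bound of a truncated moment with a weight bounded by a Gaussian -/
theorem trunc_mom (z β : ℝ) (hz : 0 < z) (hβ : 0 < β) (j : ℕ) (W : ℝ → ℝ)
    (hW : ContinuousOn W (Icc (-(3 / 10)) (3 / 10)))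
    (hb : ∀ v : ℝ, |v| ≤ 3 / 10 → W v ≤ Real.exp (-(z / (2 * β)) * v ^ 2)) :
    ∫ v in (-(3 / 10 : ℝ))..(3 / 10), W v * |v| ^ j ≤ gm z β j := by
  have hle : (-(3 / 10 : ℝ)) ≤ 3 / 10 := by norm_num
  have h1 : ∫ v in (-(3 / 10 : ℝ))..(3 / 10), W v * |v| ^ j ≤
      ∫ v in (-(3 / 10 : ℝ))..(3 / 10), |v| ^ j * Real.exp (-(z / (2 * β)) * v ^ 2) := by
    refine intervalIntegral.integral_mono_on hle ?_ ?_ ?_
    · refine ContinuousOn.intervalIntegrable ?_
      rw [uIcc_of_le hle]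
      exact hW.mul (by fun_prop)
    · exact (gm_int z β hz hβ j).intervalIntegrable
    · intro v hv
      have hv' : |v| ≤ 3 / 10 := abs_le.2 hv
      rw [mul_comm (|v| ^ j)]
      exact mul_le_mul_of_nonneg_right (hb v hv') (by positivity)
  refine h1.trans ?_
  rw [intervalIntegral.integral_of_le hle]
  exact setIntegral_le_integral (gm_int z β hz hβ j)
    (Filter.Eventually.of_forall (fun v => by positivity))

end Pool.Agent.Helper45_UR
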