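import Pool.Agent.Helper45_UR.Lapm

/-! # UR squad, module LAP0 -/

set_option autoImplicit false

namespace Pool.Agent.Helper45_UR

open MeasureTheory Set Pool.Agent.Helper21_UR

theorem KK_neg (z v : ℝ) : KK z (-v) = KK z v := by simp [KK]
theorem psi_neg (z v : ℝ) : psi z (-v) = -psi z v := by
  unfold psi
  have : (-v) ^ 3 = -(v ^ 3) := by ring
  rw [this, neg_sq, neg_div, mul_neg]
theorem KK_pos (z v : ℝ) : 0 < KK z v := Real.exp_pos _

theorem integral_odd (f : ℝ → ℝ) (c : ℝ) (h : ∀ v, f (-v) = - f v) :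
    ∫ v in (-c)..c, f v = 0 := by
  have h1 : ∫ v in (-c)..c, f (-v) = ∫ v in (-c)..c, f v := by
    rw [intervalIntegral.integral_comp_neg]
    simp
  have h2 : ∫ v in (-c)..c, f (-v) = -∫ v in (-c)..c, f v := by
    rw [← intervalIntegral.integral_neg]
    exact intervalIntegral.integral_congr (fun v _ => h v)
  linarith

/-- splitting of the oscillating integral -/
theorem osc_split (z : ℝ) (j : ℕ) :
    ∫ v in (-(3 / 10 : ℝ))..(3 / 10), (KK z v : ℂ) * Complex.exp (Complex.I * psi z v) * (v : ℂ) ^ j =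
      ((∫ v in (-(3 / 10 : ℝ))..(3 / 10), KK z v * Real.cos (psi z v) * v ^ j : ℝ) : ℂ) +
      ((∫ v in (-(3 / 10 : ℝ))..(3 / 10), KK z v * Real.sin (psi z v) * v ^ j : ℝ) : ℂ) *
        Complex.I := by
  have hK := continuous_KK z
  have hp := continuous_psi z
  rw [← intervalIntegral.integral_ofReal, ← intervalIntegral.integral_ofReal,
    ← intervalIntegral.integral_mul_const, ← intervalIntegral.integral_add]
  · refine intervalIntegral.integral_congr (fun v _ => ?_)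
    rw [mul_comm Complex.I, Complex.exp_mul_I, ← Complex.ofReal_cos, ← Complex.ofReal_sin]
    push_cast
    ring
  · refine Continuous.intervalIntegrable ?_ _ _
    have : Continuous fun v : ℝ => KK z v * Real.cos (psi z v) * v ^ j :=
      (hK.mul (Real.continuous_cos.comp hp)).mul (continuous_pow j)
    exact Complex.continuous_ofReal.comp this
  · refine Continuous.intervalIntegrable ?_ _ _
    have : Continuous fun v : ℝ => KK z v * Real.sin (psi z v) * v ^ j :=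
      (hK.mul (Real.continuous_sin.comp hp)).mul (continuous_pow j)
    exact (Complex.continuous_ofReal.comp this).mul continuous_const

theorem cos_odd_zero (z : ℝ) (j : ℕ) (hj : Odd j) :
    ∫ v in (-(3 / 10 : ℝ))..(3 / 10), KK z v * Real.cos (psi z v) * v ^ j = 0 := by
  refine integral_odd _ _ (fun v => ?_)
  rw [KK_neg, psi_neg, Real.cos_neg, hj.neg_pow]
  ring

theorem sin_even_zero (z : ℝ) (j : ℕ) (hj : Even j) :
    ∫ v in (-(3 / 10 : ℝ))..(3 / 10), KK z v * Real.sin (psi z v) * v ^ j = 0 := by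
  refine integral_odd _ _ (fun v => ?_)
  rw [KK_neg, psi_neg, Real.sin_neg, hj.neg_pow]
  ring

theorem abs_psi_le (z v : ℝ) (hz : 0 < z) : |psi z v| ≤ z / 2 * |v| ^ 3 := by
  unfold psi
  rw [abs_mul, abs_of_pos (by positivity : (0 : ℝ) < z / 2), abs_div, abs_pow,
    abs_of_pos (by positivity : (0 : ℝ) < 1 + v ^ 2)]
  refine mul_le_mul_of_nonneg_left ?_ (by positivity)
  exact div_le_self (by positivity) (by nlinarith [sq_nonneg v])

/-- the odd moments -/
theorem sin_mom (z : ℝ) (hz : 328 ≤ z) (j : ℕ) (μ : ℝ)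
    (h : (j + 3, μ) = (4, 3.73) ∨ (j + 3, μ) = (6, 20.3)) :
    |∫ v in (-(3 / 10 : ℝ))..(3 / 10), KK z v * Real.sin (psi z v) * v ^ j| ≤
      z / 2 * (μ * Real.sqrt (2 * Real.pi / z) * (Real.sqrt z)⁻¹ ^ (j + 3)) := by
  have hz0 : 0 < z := by linarith
  have hle : (-(3 / 10 : ℝ)) ≤ 3 / 10 := by norm_num
  have hK := continuous_KK z
  have h1 := lapm z hz (j + 3) μ (by rcases h with h | h <;> simp [h])
  have h2 : |∫ v in (-(3 / 10 : ℝ))..(3 / 10), KK z v * Real.sin (psi z v) * v ^ j| ≤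
      ∫ v in (-(3 / 10 : ℝ))..(3 / 10), z / 2 * (KK z v * |v| ^ (j + 3)) := by
    rw [← Real.norm_eq_abs]
    refine intervalIntegral.norm_integral_le_of_norm_le hle ?_ ?_
    · refine Filter.Eventually.of_forall (fun v _ => ?_)
      rw [Real.norm_eq_abs, abs_mul, abs_mul, abs_of_pos (KK_pos z v), abs_pow]
      have h3 : |Real.sin (psi z v)| ≤ z / 2 * |v| ^ 3 :=
        (Real.abs_sin_le_abs).trans (abs_psi_le z v hz0)
      calc KK z v * |Real.sin (psi z v)| * |v| ^ j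
          ≤ KK z v * (z / 2 * |v| ^ 3) * |v| ^ j := by
            refine mul_le_mul_of_nonneg_right ?_ (by positivity)
            exact mul_le_mul_of_nonneg_left h3 (KK_pos z v).le
        _ = z / 2 * (KK z v * |v| ^ (j + 3)) := by ring
    · refine Continuous.intervalIntegrable ?_ _ _
      exact continuous_const.mul (hK.mul (by fun_prop))
  refine h2.trans ?_
  rw [intervalIntegral.integral_const_mul]
  exact mul_le_mul_of_nonneg_left h1 (by positivity)

/-- comparison of the weights -/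
theorem weight_cmp (z v : ℝ) (hz : 0 < z) :
    |KK z v * Real.cos (psi z v) - Real.exp (-(z / 2) * v ^ 2)| ≤
      KK z v * (z / 2 * |v| ^ 4 + z ^ 2 / 8 * |v| ^ 6) := by
  have hK := KK_pos z v
  -- K - G
  have h1 : Real.exp (-(z / 2) * v ^ 2) = KK z v * Real.exp (-(z / 2 * (v ^ 4 / (1 + v ^ 2)))) := by
    unfold KK
    rw [← Real.exp_add]
    congr 1
    field_simp
    ring
  have h2 : 1 - z / 2 * v ^ 4 ≤ Real.exp (-(z / 2 * (v ^ 4 / (1 + v ^ 2)))) := by
    have h3 := Real.add_one_le_exp (-(z / 2 * (v ^ 4 / (1 + v ^ 2))))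
    have h4 : v ^ 4 / (1 + v ^ 2) ≤ v ^ 4 := div_le_self (by positivity) (by nlinarith [sq_nonneg v])
    have h5 : z / 2 * (v ^ 4 / (1 + v ^ 2)) ≤ z / 2 * v ^ 4 :=
      mul_le_mul_of_nonneg_left h4 (by positivity)
    linarith
  have h3 : Real.exp (-(z / 2 * (v ^ 4 / (1 + v ^ 2)))) ≤ 1 := by
    rw [Real.exp_le_one_iff]
    have : 0 ≤ z / 2 * (v ^ 4 / (1 + v ^ 2)) := by positivity
    linarith
  have h4 : |v| ^ 4 = v ^ 4 := by
    rw [← abs_pow]; exact abs_of_nonneg (by positivity)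
  have h5 : 1 - Real.cos (psi z v) ≤ z ^ 2 / 8 * |v| ^ 6 := by
    have h6 := Real.one_sub_sq_div_two_le_cos (x := psi z v)
    have h7 := abs_psi_le z v hz
    have h8 : psi z v ^ 2 ≤ (z / 2 * |v| ^ 3) ^ 2 := by
      rw [← sq_abs (psi z v)]
      exact pow_le_pow_left₀ (abs_nonneg _) h7 2
    have h9 : (z / 2 * |v| ^ 3) ^ 2 = z ^ 2 / 4 * |v| ^ 6 := by ring
    rw [h9] at h8
    linarith
  have h6 := Real.cos_le_one (psi z v)
  have h7 : KK z v * Real.cos (psi z v) - Real.exp (-(z / 2) * v ^ 2) =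
      KK z v * (Real.cos (psi z v) - Real.exp (-(z / 2 * (v ^ 4 / (1 + v ^ 2))))) := by
    rw [h1]; ring
  rw [h7, abs_mul, abs_of_pos hK, h4]
  refine mul_le_mul_of_nonneg_left ?_ hK.le
  have h8 : 0 ≤ z ^ 2 / 8 * |v| ^ 6 := by positivity
  have h9 : 0 ≤ z / 2 * v ^ 4 := by positivity
  rw [abs_le]
  constructor <;> linarith

/-- the tail of the Gaussian moments -/
theorem tail_bound (z : ℝ) (hz : 0 < z) (j : ℕ) :
    |(∫ v in (-(3 / 10 : ℝ))..(3 / 10), Real.exp (-(z / 2) * v ^ 2) * |v| ^ j) - gm z 1 j| ≤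
      (10 / 3) ^ 10 * gm z 1 (j + 10) := by
  have hle : (-(3 / 10 : ℝ)) ≤ 3 / 10 := by norm_num
  have hi := gm_int z 1 hz one_pos j
  have hi2 := gm_int z 1 hz one_pos (j + 10)
  have h1 : ∫ v in (-(3 / 10 : ℝ))..(3 / 10), Real.exp (-(z / 2) * v ^ 2) * |v| ^ j =
      ∫ v in Ioc (-(3 / 10 : ℝ)) (3 / 10), |v| ^ j * Real.exp (-(z / (2 * 1)) * v ^ 2) := by
    rw [intervalIntegral.integral_of_le hle]
    refine setIntegral_congr_fun measurableSet_Ioc (fun v _ => ?_)
    simp only [mul_one]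
    ring
  have h2 : gm z 1 j = (∫ v in Ioc (-(3 / 10 : ℝ)) (3 / 10),
      |v| ^ j * Real.exp (-(z / (2 * 1)) * v ^ 2)) +
      ∫ v in (Ioc (-(3 / 10 : ℝ)) (3 / 10))ᶜ, |v| ^ j * Real.exp (-(z / (2 * 1)) * v ^ 2) :=
    (integral_add_compl measurableSet_Ioc hi).symm
  rw [h1, h2, sub_add_cancel_left, abs_neg]
  have h3 : 0 ≤ ∫ v in (Ioc (-(3 / 10 : ℝ)) (3 / 10))ᶜ, |v| ^ j * Real.exp (-(z / (2 * 1)) * v ^ 2) :=
    integral_nonneg (fun v => by positivity)
  rw [abs_of_nonneg h3]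
  have h4 : ∫ v in (Ioc (-(3 / 10 : ℝ)) (3 / 10))ᶜ, |v| ^ j * Real.exp (-(z / (2 * 1)) * v ^ 2) ≤
      ∫ v in (Ioc (-(3 / 10 : ℝ)) (3 / 10))ᶜ,
        (10 / 3) ^ 10 * (|v| ^ (j + 10) * Real.exp (-(z / (2 * 1)) * v ^ 2)) := by
    refine setIntegral_mono_on hi.integrableOn (hi2.const_mul _).integrableOn
      measurableSet_Ioc.compl (fun v hv => ?_)
    have hv' : 3 / 10 ≤ |v| := by
      by_contra hc
      rw [not_le, abs_lt] at hc
      exact hv ⟨hc.1, hc.2.le⟩
    have h5 : 1 ≤ (10 / 3 * |v|) ^ 10 := by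
      apply one_le_pow₀
      linarith
    have h6 : 0 ≤ |v| ^ j * Real.exp (-(z / (2 * 1)) * v ^ 2) := by positivity
    calc |v| ^ j * Real.exp (-(z / (2 * 1)) * v ^ 2)
        ≤ (10 / 3 * |v|) ^ 10 * (|v| ^ j * Real.exp (-(z / (2 * 1)) * v ^ 2)) :=
          le_mul_of_one_le_left h6 h5
      _ = (10 / 3) ^ 10 * (|v| ^ (j + 10) * Real.exp (-(z / (2 * 1)) * v ^ 2)) := by ring
  refine h4.trans ?_
  have h5 : ∫ v in (Ioc (-(3 / 10 : ℝ)) (3 / 10))ᶜ,
        (10 / 3) ^ 10 * (|v| ^ (j + 10) * Real.exp (-(z / (2 * 1)) * v ^ 2)) ≤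
      ∫ v : ℝ, (10 / 3) ^ 10 * (|v| ^ (j + 10) * Real.exp (-(z / (2 * 1)) * v ^ 2)) :=
    setIntegral_le_integral (hi2.const_mul _) (Filter.Eventually.of_forall (fun v => by positivity))
  refine h5.trans ?_
  rw [integral_const_mul]
  exact le_rfl

/-- the even moments -/
theorem cos_mom (z : ℝ) (hz : 328 ≤ z) (j : ℕ) (hj : Even j) (μ ν : ℝ)
    (h : (j, μ, ν) = (0, 3.73, 20.3) ∨ (j, μ, ν) = (2, 20.3, 155)) :
    |(∫ v in (-(3 / 10 : ℝ))..(3 / 10), KK z v * Real.cos (psi z v) * v ^ j) - gm z 1 j| ≤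
      z / 2 * (μ * Real.sqrt (2 * Real.pi / z) * (Real.sqrt z)⁻¹ ^ (j + 4)) +
      z ^ 2 / 8 * (ν * Real.sqrt (2 * Real.pi / z) * (Real.sqrt z)⁻¹ ^ (j + 6)) +
      (10 / 3) ^ 10 * gm z 1 (j + 10) := by
  have hz0 : 0 < z := by linarith
  have hle : (-(3 / 10 : ℝ)) ≤ 3 / 10 := by norm_num
  have hK := continuous_KK z
  have hp := continuous_psi z
  have hG : Continuous fun v : ℝ => Real.exp (-(z / 2) * v ^ 2) * |v| ^ j := by fun_prop
  have hC : Continuous fun v : ℝ => KK z v * Real.cos (psi z v) * v ^ j :=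
    (hK.mul (Real.continuous_cos.comp hp)).mul (continuous_pow j)
  have h1 := lapm z hz (j + 4) μ (by rcases h with h | h <;> simp_all)
  have h2 := lapm z hz (j + 6) ν (by rcases h with h | h <;> simp_all)
  have ht := tail_bound z hz0 j
  have h3 : |(∫ v in (-(3 / 10 : ℝ))..(3 / 10), KK z v * Real.cos (psi z v) * v ^ j) -
      ∫ v in (-(3 / 10 : ℝ))..(3 / 10), Real.exp (-(z / 2) * v ^ 2) * |v| ^ j| ≤
      ∫ v in (-(3 / 10 : ℝ))..(3 / 10), (z / 2 * (KK z v * |v| ^ (j + 4)) +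
        z ^ 2 / 8 * (KK z v * |v| ^ (j + 6))) := by
    rw [← intervalIntegral.integral_sub (hC.intervalIntegrable _ _) (hG.intervalIntegrable _ _),
      ← Real.norm_eq_abs]
    refine intervalIntegral.norm_integral_le_of_norm_le hle ?_ ?_
    · refine Filter.Eventually.of_forall (fun v _ => ?_)
      have h4 := weight_cmp z v hz0
      have h5 : v ^ j = |v| ^ j := (hj.pow_abs v).symm
      rw [h5, ← sub_mul, Real.norm_eq_abs, abs_mul, abs_of_nonneg (by positivity : 0 ≤ |v| ^ j)]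
      calc |KK z v * Real.cos (psi z v) - Real.exp (-(z / 2) * v ^ 2)| * |v| ^ j
          ≤ KK z v * (z / 2 * |v| ^ 4 + z ^ 2 / 8 * |v| ^ 6) * |v| ^ j :=
            mul_le_mul_of_nonneg_right h4 (by positivity)
        _ = _ := by ring
    · refine Continuous.intervalIntegrable ?_ _ _
      exact (continuous_const.mul (hK.mul (by fun_prop))).add
        (continuous_const.mul (hK.mul (by fun_prop)))
  have c1 : Continuous fun v : ℝ => z / 2 * (KK z v * |v| ^ (j + 4)) :=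
    continuous_const.mul (hK.mul (by fun_prop))
  have c2 : Continuous fun v : ℝ => z ^ 2 / 8 * (KK z v * |v| ^ (j + 6)) :=
    continuous_const.mul (hK.mul (by fun_prop))
  rw [intervalIntegral.integral_add (c1.intervalIntegrable _ _) (c2.intervalIntegrable _ _),
    intervalIntegral.integral_const_mul, intervalIntegral.integral_const_mul] at h3
  have h4 := mul_le_mul_of_nonneg_left h1 (by positivity : 0 ≤ z / 2)
  have h5 := mul_le_mul_of_nonneg_left h2 (by positivity : 0 ≤ z ^ 2 / 8)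
  have h6 := abs_sub_le (∫ v in (-(3 / 10 : ℝ))..(3 / 10), KK z v * Real.cos (psi z v) * v ^ j)
    (∫ v in (-(3 / 10 : ℝ))..(3 / 10), Real.exp (-(z / 2) * v ^ 2) * |v| ^ j) (gm z 1 j)
  linarith

theorem lap0 : Lap0Statement := by
  intro z hz
  have hz0 : 0 < z := by linarith
  have e0 := gm_zero z 1 hz0 one_pos
  have es := gm_succ z 1 hz0 one_pos
  rw [Real.sqrt_one, one_mul] at e0
  have hsq := inv_sqrt_sq z hz0
  have hr0 : 0 ≤ Real.sqrt (2 * Real.pi / z) := Real.sqrt_nonneg _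
  have e2 : gm z 1 2 = 1 / z * Real.sqrt (2 * Real.pi / z) := by
    rw [es 0, e0]; push_cast; ring
  have e10 : gm z 1 10 = 945 / z ^ 5 * Real.sqrt (2 * Real.pi / z) := by
    rw [es 8, es 6, es 4, es 2, es 0, e0]; push_cast; field_simp; ring
  have e12 : gm z 1 12 = 10395 / z ^ 6 * Real.sqrt (2 * Real.pi / z) := by
    rw [es 10, e10]; push_cast; field_simp; ring
  have p4 : (Real.sqrt z)⁻¹ ^ 4 = z⁻¹ ^ 2 := by rw [← hsq]; ring
  have p6 : (Real.sqrt z)⁻¹ ^ 6 = z⁻¹ ^ 3 := by rw [← hsq]; ring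
  have p8 : (Real.sqrt z)⁻¹ ^ 8 = z⁻¹ ^ 4 := by rw [← hsq]; ring
  refine ⟨?_, ?_, ?_, ?_⟩
  · have h1 := osc_split z 0
    simp only [pow_zero, mul_one] at h1
    rw [h1]
    have h2 := sin_even_zero z 0 (by decide)
    simp only [pow_zero, mul_one] at h2
    rw [h2]
    have h3 := cos_mom z hz 0 (by decide) 3.73 20.3 (by simp)
    simp only [pow_zero, mul_one] at h3
    rw [e0, p4, p6, e10] at h3
    rw [Complex.ofReal_zero, zero_mul, add_zero, ← Complex.ofReal_sub, Complex.norm_real,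
      Real.norm_eq_abs]
    refine h3.trans ?_
    have h4 : z / 2 * (3.73 * Real.sqrt (2 * Real.pi / z) * z⁻¹ ^ 2) +
        z ^ 2 / 8 * (20.3 * Real.sqrt (2 * Real.pi / z) * z⁻¹ ^ 3) +
        (10 / 3) ^ 10 * (945 / z ^ 5 * Real.sqrt (2 * Real.pi / z)) =
        (1.865 + 2.5375 + (10 / 3) ^ 10 * 945 * (z⁻¹ ^ 4)) * (z⁻¹ * Real.sqrt (2 * Real.pi / z)) := by
      field_simp
      ring
    rw [h4]
    have h5 : z⁻¹ ≤ 1 / 328 := by
      rw [inv_le_comm₀ hz0 (by norm_num)]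
      linarith
    have h6 : z⁻¹ ^ 4 ≤ (1 / 328) ^ 4 := pow_le_pow_left₀ (by positivity) h5 4
    have h7 : 1.865 + 2.5375 + (10 / 3) ^ 10 * 945 * (z⁻¹ ^ 4) ≤ 5 := by
      norm_num at h6 ⊢
      linarith
    have h8 : 0 ≤ z⁻¹ * Real.sqrt (2 * Real.pi / z) := by positivity
    calc _ ≤ 5 * (z⁻¹ * Real.sqrt (2 * Real.pi / z)) := mul_le_mul_of_nonneg_right h7 h8
      _ = _ := by ring
  · have h1 := osc_split z 1
    simp only [pow_one] at h1
    rw [h1]
    have h2 := cos_odd_zero z 1 (by decide)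
    simp only [pow_one] at h2
    rw [h2]
    have h3 := sin_mom z hz 1 3.73 (by simp)
    simp only [pow_one] at h3
    rw [Complex.ofReal_zero, zero_add, norm_mul, Complex.norm_I, mul_one, Complex.norm_real,
      Real.norm_eq_abs]
    refine h3.trans ?_
    have : (1 : ℕ) + 3 = 4 := by norm_num
    rw [this, p4]
    have h4 : z / 2 * (3.73 * Real.sqrt (2 * Real.pi / z) * z⁻¹ ^ 2) =
        1.865 / z * Real.sqrt (2 * Real.pi / z) := by
      field_simp
      ring
    rw [h4]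
    refine mul_le_mul_of_nonneg_right ?_ hr0
    exact div_le_div_of_nonneg_right (by norm_num) hz0.le
  · have h1 := osc_split z 2
    rw [h1]
    have h2 := sin_even_zero z 2 (by decide)
    rw [h2]
    have h3 := cos_mom z hz 2 (by decide) 20.3 155 (by simp)
    have a1 : (2 : ℕ) + 4 = 6 := by norm_num
    have a2 : (2 : ℕ) + 6 = 8 := by norm_num
    have a3 : (2 : ℕ) + 10 = 12 := by norm_num
    rw [e2, a1, a2, a3, p6, p8, e12] at h3
    rw [Complex.ofReal_zero, zero_mul, add_zero]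
    have h9 : (1 / (z : ℂ) * (Real.sqrt (2 * Real.pi / z) : ℂ)) =
        ((1 / z * Real.sqrt (2 * Real.pi / z) : ℝ) : ℂ) := by push_cast; ring
    rw [h9, ← Complex.ofReal_sub, Complex.norm_real, Real.norm_eq_abs]
    refine h3.trans ?_
    have h4 : z / 2 * (20.3 * Real.sqrt (2 * Real.pi / z) * z⁻¹ ^ 3) +
        z ^ 2 / 8 * (155 * Real.sqrt (2 * Real.pi / z) * z⁻¹ ^ 4) +
        (10 / 3) ^ 10 * (10395 / z ^ 6 * Real.sqrt (2 * Real.pi / z)) =
        (10.15 + 19.375 + (10 / 3) ^ 10 * 10395 * (z⁻¹ ^ 4)) *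
          (z⁻¹ ^ 2 * Real.sqrt (2 * Real.pi / z)) := by
      field_simp
      ring
    rw [h4]
    have h5 : z⁻¹ ≤ 1 / 328 := by
      rw [inv_le_comm₀ hz0 (by norm_num)]
      linarith
    have h6 : z⁻¹ ^ 4 ≤ (1 / 328) ^ 4 := pow_le_pow_left₀ (by positivity) h5 4
    have h7 : 10.15 + 19.375 + (10 / 3) ^ 10 * 10395 * (z⁻¹ ^ 4) ≤ 30 := by
      norm_num at h6 ⊢
      linarith
    have h8 : 0 ≤ z⁻¹ ^ 2 * Real.sqrt (2 * Real.pi / z) := by positivity
    calc _ ≤ 30 * (z⁻¹ ^ 2 * Real.sqrt (2 * Real.pi / z)) := mul_le_mul_of_nonneg_right h7 h8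
      _ = _ := by field_simp
  · have h1 := osc_split z 3
    rw [h1]
    have h2 := cos_odd_zero z 3 (by decide)
    rw [h2]
    have h3 := sin_mom z hz 3 20.3 (by simp)
    rw [Complex.ofReal_zero, zero_add, norm_mul, Complex.norm_I, mul_one, Complex.norm_real,
      Real.norm_eq_abs]
    refine h3.trans ?_
    have : (3 : ℕ) + 3 = 6 := by norm_num
    rw [this, p6]
    have h4 : z / 2 * (20.3 * Real.sqrt (2 * Real.pi / z) * z⁻¹ ^ 3) =
        10.15 / z ^ 2 * Real.sqrt (2 * Real.pi / z) := by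
      field_simp
      ring
    rw [h4]
    refine mul_le_mul_of_nonneg_right ?_ hr0
    exact div_le_div_of_nonneg_right (by norm_num) (by positivity)

end Pool.Agent.Helper45_UR
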