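import Pool.Agent.Helper45_UR.Gauss

/-! # UR squad, modules LAPM and LAPE -/

set_option autoImplicit false

namespace Pool.Agent.Helper45_UR

open MeasureTheory Set Pool.Agent.Helper21_UR

theorem continuous_KK (z : ℝ) : Continuous (fun v : ℝ => KK z v) := by
  unfold KK
  refine Real.continuous_exp.comp (continuous_const.mul ?_)
  exact (continuous_pow 2).div (by fun_prop) (fun v => by positivity)

theorem continuous_psi (z : ℝ) : Continuous (fun v : ℝ => psi z v) := by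
  unfold psi
  refine continuous_const.mul ?_
  exact (continuous_pow 3).div (by fun_prop) (fun v => by positivity)

theorem continuous_EE (s : ℝ) : Continuous (fun v : ℝ => EE s v) := by
  unfold EE
  refine Real.continuous_exp.comp (continuous_const.mul ?_)
  exact (continuous_pow 2).div (by fun_prop) (fun v => by positivity)

theorem sq_div_lower (v : ℝ) (hv : |v| ≤ 3 / 10) : v ^ 2 / 1.09 ≤ v ^ 2 / (1 + v ^ 2) := by
  have h : v ^ 2 ≤ 0.09 := by
    rw [← sq_abs]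
    nlinarith [abs_nonneg v]
  exact div_le_div_of_nonneg_left (sq_nonneg v) (by positivity) (by linarith)

theorem KK_le (z v : ℝ) (hz : 0 < z) (hv : |v| ≤ 3 / 10) :
    KK z v ≤ Real.exp (-(z / (2 * 1.09)) * v ^ 2) := by
  unfold KK
  rw [Real.exp_le_exp]
  have h := mul_le_mul_of_nonneg_left (sq_div_lower v hv) (by positivity : 0 ≤ z / 2)
  have h2 : -(z / (2 * 1.09)) * v ^ 2 = -(z / 2 * (v ^ 2 / 1.09)) := by ring
  rw [h2]
  linarith

theorem KK_EE_le (z s v : ℝ) (hz : 328 ≤ z) (hs : |s| ≤ 5) (hv : |v| ≤ 3 / 10) :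
    KK z v * EE s v ≤ Real.exp (-(z / (2 * 1.2055)) * v ^ 2) := by
  unfold KK EE
  rw [← Real.exp_add, Real.exp_le_exp]
  have h1 : Real.pi * |s| ≤ 15.708 := by
    have := Real.pi_lt_d4
    have h := abs_nonneg s
    nlinarith [Real.pi_pos]
  have h2 : 0.9042 * z ≤ z - 2 * (Real.pi * |s|) := by linarith
  have h3 := sq_div_lower v hv
  have h4 : 0 ≤ v ^ 2 / 1.09 := by positivity
  have h5 : -(z / (2 * 1.2055)) * v ^ 2 = -(z / 2 * (1.09 / 1.2055)) * (v ^ 2 / 1.09) := by ring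
  have h6 : 0 ≤ v ^ 2 / (1 + v ^ 2) := by positivity
  have h7 : -(z / 2) * (v ^ 2 / (1 + v ^ 2)) + Real.pi * |s| * (v ^ 2 / (1 + v ^ 2)) =
      -((z - 2 * (Real.pi * |s|)) / 2 * (v ^ 2 / (1 + v ^ 2))) := by ring
  rw [h5, h7]
  have h8 : z / 2 * (1.09 / 1.2055) ≤ (z - 2 * (Real.pi * |s|)) / 2 := by
    have : z / 2 * (1.09 / 1.2055) ≤ 0.9042 * z / 2 := by
      have : (1.09 / 1.2055 : ℝ) ≤ 0.9042 := by norm_num
      nlinarith
    linarith
  have h9 : z / 2 * (1.09 / 1.2055) * (v ^ 2 / 1.09) ≤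
      (z - 2 * (Real.pi * |s|)) / 2 * (v ^ 2 / (1 + v ^ 2)) :=
    mul_le_mul h8 h3 h4 (by linarith)
  linarith

theorem sqrt_two_pi_div (z : ℝ) (hz : 0 < z) :
    Real.sqrt (2 * Real.pi / z) = Real.sqrt (2 * Real.pi) * (Real.sqrt z)⁻¹ := by
  rw [Real.sqrt_div (by positivity), div_eq_mul_inv]

theorem sqrt_two_pi_gt : 2.5066 ≤ Real.sqrt (2 * Real.pi) := by
  apply Real.le_sqrt_of_sq_le
  have := Real.pi_gt_d6
  norm_num
  linarith

theorem inv_sqrt_sq (z : ℝ) (hz : 0 < z) : (Real.sqrt z)⁻¹ ^ 2 = z⁻¹ := by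
  rw [inv_pow, Real.sq_sqrt hz.le]

theorem lapm : LapmStatement := by
  intro z hz j μ h
  have hz0 : 0 < z := by linarith
  have key := trunc_mom z 1.09 hz0 (by norm_num) j (KK z) (continuous_KK z).continuousOn
    (fun v hv => KK_le z v hz0 hv)
  refine key.trans ?_
  have e0 := gm_zero z 1.09 hz0 (by norm_num)
  have e1 := gm_one z 1.09 hz0 (by norm_num)
  have es := gm_succ z 1.09 hz0 (by norm_num)
  have hs : Real.sqrt 1.09 ≤ 1.04404 := by
    apply Real.sqrt_le_iff.2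
    constructor <;> norm_num
  have hs0 : 0 ≤ Real.sqrt 1.09 := Real.sqrt_nonneg _
  have hr0 : 0 ≤ Real.sqrt (2 * Real.pi / z) := Real.sqrt_nonneg _
  have hi : 0 < z⁻¹ := by positivity
  have hr1 := sqrt_two_pi_div z hz0
  have h2pi := sqrt_two_pi_gt
  have hsz : 0 < (Real.sqrt z)⁻¹ := by positivity
  have hsq := inv_sqrt_sq z hz0
  simp only [Prod.mk.injEq] at h
  rcases h with ⟨rfl, rfl⟩ | ⟨rfl, rfl⟩ | ⟨rfl, rfl⟩ | ⟨rfl, rfl⟩ | ⟨rfl, rfl⟩ | ⟨rfl, rfl⟩ | ⟨rfl, rfl⟩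
  · rw [e0, pow_zero, mul_one]
    nlinarith
  · rw [e1, hr1, pow_one]
    have : 2 * 1.09 / z = 2.18 * (Real.sqrt z)⁻¹ ^ 2 := by rw [hsq]; ring
    rw [this]
    have h3 : 0 ≤ (Real.sqrt z)⁻¹ ^ 2 := by positivity
    nlinarith
  · rw [es 0, e0, hsq]
    have : ((0 : ℕ) : ℝ) = 0 := by norm_num
    rw [this]
    have h4 : (0 + 1) * 1.09 / z * (Real.sqrt 1.09 * Real.sqrt (2 * Real.pi / z)) =
        1.09 * Real.sqrt 1.09 * (Real.sqrt (2 * Real.pi / z) * z⁻¹) := by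
      field_simp
      ring
    rw [h4]
    have h5 : 0 ≤ Real.sqrt (2 * Real.pi / z) * z⁻¹ := by positivity
    nlinarith
  · rw [es 1, e1, hr1]
    have h4 : (((1 : ℕ) : ℝ) + 1) * 1.09 / z * (2 * 1.09 / z) =
        4 * 1.09 ^ 2 * ((Real.sqrt z)⁻¹ ^ 4) := by
      have : (Real.sqrt z)⁻¹ ^ 4 = z⁻¹ ^ 2 := by rw [← hsq]; ring
      rw [this]
      push_cast
      field_simp
      ring
    rw [h4]
    have h5 : 1.9 * (Real.sqrt (2 * Real.pi) * (Real.sqrt z)⁻¹) * (Real.sqrt z)⁻¹ ^ 3 =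
        1.9 * Real.sqrt (2 * Real.pi) * (Real.sqrt z)⁻¹ ^ 4 := by ring
    rw [h5]
    refine mul_le_mul_of_nonneg_right ?_ (by positivity)
    nlinarith
  · rw [es 2, es 0, e0]
    have h4 : (((2 : ℕ) : ℝ) + 1) * 1.09 / z * ((((0 : ℕ) : ℝ) + 1) * 1.09 / z *
        (Real.sqrt 1.09 * Real.sqrt (2 * Real.pi / z))) =
        3 * 1.09 ^ 2 * Real.sqrt 1.09 * (Real.sqrt (2 * Real.pi / z) * (Real.sqrt z)⁻¹ ^ 4) := by
      have : (Real.sqrt z)⁻¹ ^ 4 = z⁻¹ ^ 2 := by rw [← hsq]; ring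
      rw [this]
      push_cast
      field_simp
      ring
    rw [h4, mul_assoc 3.73]
    refine mul_le_mul_of_nonneg_right ?_ (by positivity)
    nlinarith
  · rw [es 4, es 2, es 0, e0]
    have h4 : (((4 : ℕ) : ℝ) + 1) * 1.09 / z * ((((2 : ℕ) : ℝ) + 1) * 1.09 / z *
        ((((0 : ℕ) : ℝ) + 1) * 1.09 / z *
        (Real.sqrt 1.09 * Real.sqrt (2 * Real.pi / z)))) =
        15 * 1.09 ^ 3 * Real.sqrt 1.09 * (Real.sqrt (2 * Real.pi / z) * (Real.sqrt z)⁻¹ ^ 6) := by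
      have : (Real.sqrt z)⁻¹ ^ 6 = z⁻¹ ^ 3 := by rw [← hsq]; ring
      rw [this]
      push_cast
      field_simp
      ring
    rw [h4, mul_assoc 20.3]
    refine mul_le_mul_of_nonneg_right ?_ (by positivity)
    nlinarith
  · rw [es 6, es 4, es 2, es 0, e0]
    have h4 : (((6 : ℕ) : ℝ) + 1) * 1.09 / z * ((((4 : ℕ) : ℝ) + 1) * 1.09 / z *
        ((((2 : ℕ) : ℝ) + 1) * 1.09 / z * ((((0 : ℕ) : ℝ) + 1) * 1.09 / z *
        (Real.sqrt 1.09 * Real.sqrt (2 * Real.pi / z))))) =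
        105 * 1.09 ^ 4 * Real.sqrt 1.09 * (Real.sqrt (2 * Real.pi / z) * (Real.sqrt z)⁻¹ ^ 8) := by
      have : (Real.sqrt z)⁻¹ ^ 8 = z⁻¹ ^ 4 := by rw [← hsq]; ring
      rw [this]
      push_cast
      field_simp
      ring
    rw [h4, mul_assoc 155]
    refine mul_le_mul_of_nonneg_right ?_ (by positivity)
    nlinarith

theorem lape : LapeStatement := by
  intro z s hz hs j μ h
  have hz0 : 0 < z := by linarith
  have key := trunc_mom z 1.2055 hz0 (by norm_num) j (fun v => KK z v * EE s v)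
    ((continuous_KK z).mul (continuous_EE s)).continuousOn
    (fun v hv => KK_EE_le z s v hz hs hv)
  refine key.trans ?_
  have e0 := gm_zero z 1.2055 hz0 (by norm_num)
  have e1 := gm_one z 1.2055 hz0 (by norm_num)
  have es := gm_succ z 1.2055 hz0 (by norm_num)
  have hs : Real.sqrt 1.2055 ≤ 1.098 := by
    apply Real.sqrt_le_iff.2
    constructor <;> norm_num
  have hs0 : 0 ≤ Real.sqrt 1.2055 := Real.sqrt_nonneg _
  have hr0 : 0 ≤ Real.sqrt (2 * Real.pi / z) := Real.sqrt_nonneg _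
  have hi : 0 < z⁻¹ := by positivity
  have hr1 := sqrt_two_pi_div z hz0
  have h2pi := sqrt_two_pi_gt
  have hsz : 0 < (Real.sqrt z)⁻¹ := by positivity
  have hsq := inv_sqrt_sq z hz0
  simp only [Prod.mk.injEq] at h
  rcases h with ⟨rfl, rfl⟩ | ⟨rfl, rfl⟩ | ⟨rfl, rfl⟩ | ⟨rfl, rfl⟩
  · rw [e0, pow_zero, mul_one]
    nlinarith
  · rw [e1, hr1, pow_one]
    have : 2 * 1.2055 / z = 2.411 * (Real.sqrt z)⁻¹ ^ 2 := by rw [hsq]; ring
    rw [this]
    have h3 : 0 ≤ (Real.sqrt z)⁻¹ ^ 2 := by positivity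
    nlinarith
  · rw [es 0, e0, hsq]
    have : ((0 : ℕ) : ℝ) = 0 := by norm_num
    rw [this]
    have h4 : (0 + 1) * 1.2055 / z * (Real.sqrt 1.2055 * Real.sqrt (2 * Real.pi / z)) =
        1.2055 * Real.sqrt 1.2055 * (Real.sqrt (2 * Real.pi / z) * z⁻¹) := by
      field_simp
      ring
    rw [h4]
    have h5 : 0 ≤ Real.sqrt (2 * Real.pi / z) * z⁻¹ := by positivity
    nlinarith
  · rw [es 1, e1, hr1]
    have h4 : (((1 : ℕ) : ℝ) + 1) * 1.2055 / z * (2 * 1.2055 / z) =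
        4 * 1.2055 ^ 2 * ((Real.sqrt z)⁻¹ ^ 4) := by
      have : (Real.sqrt z)⁻¹ ^ 4 = z⁻¹ ^ 2 := by rw [← hsq]; ring
      rw [this]
      push_cast
      field_simp
      ring
    rw [h4]
    have h5 : 2.33 * (Real.sqrt (2 * Real.pi) * (Real.sqrt z)⁻¹) * (Real.sqrt z)⁻¹ ^ 3 =
        2.33 * Real.sqrt (2 * Real.pi) * (Real.sqrt z)⁻¹ ^ 4 := by ring
    rw [h5]
    refine mul_le_mul_of_nonneg_right ?_ (by positivity)
    nlinarith

end Pool.Agent.Helper45_UR
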